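import Pool.Agent.Y785.EN.Cone2

set_option autoImplicit false

open MeasureTheory Encodable
open scoped ENNReal
open Nat.Partrec (Code)

namespace Pool.Agent.Y785.EN

open Pool.Agent Pool.Agent.Helper227 Pool.Agent.Helper227.EN

/-- Lemma A with cone avoidance: the basis theorem. -/
theorem goodC_basis {R F : Set (ℕ → Bool)} (hc : R.Countable) (hR : R.Nonempty)
    (hj : ∀ X ∈ R, ∀ Y ∈ R, Helper227.join X Y ∈ R) (hcF : F.Countable) {X : ℕ → Bool}
    (hX : GoodC R F X)
    {C : List Bool × List Bool → Prop} (hC : S1 C) (hne : (PiC C X).Nonempty) :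
    ∃ P ∈ PiC C X, GoodC R F (Helper227.join X P) := by
  classical
  have cR : Countable R := hc
  have cF : Countable F := hcF
  let Q := R ⊕ (R × Code × F)
  have nQ : Nonempty Q := ⟨Sum.inl ⟨hR.some, hR.some_mem⟩⟩
  obtain ⟨e, he⟩ := exists_surjective_nat Q
  -- states: a member `V` of `R` and a class with oracle `X ⊕ V`
  obtain ⟨V0, hV0⟩ := hR
  obtain ⟨C0, hC0, eC0⟩ := PiC_of_tLe (tLe_join_left X V0) hC
  let St := {p : (ℕ → Bool) × (List Bool × List Bool → Prop) // p.1 ∈ R ∧ S1 p.2 ∧
    (PiC p.2 (Helper227.join X p.1)).Nonempty}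
  let Req : Q → (ℕ → Bool) → Prop := fun q P => match q with
    | .inl W => ∃ Y ∈ R, MLR (Helper227.join (Helper227.join X P) W.1) Y
    | .inr (W, c, A) => ¬ cpt2 c A.1 (Helper227.join X W.1) P
  have hstep : ∀ (q : Q) (p : St), ∃ p' : St,
      PiC p'.1.2 (Helper227.join X p'.1.1) ⊆ PiC p.1.2 (Helper227.join X p.1.1) ∧
      ∀ P ∈ PiC p'.1.2 (Helper227.join X p'.1.1), Req q P := by
    rintro q ⟨⟨V, C1⟩, hV, hC1, hne1⟩
    simp only at hV hC1 hne1
    rcases q with ⟨w, hwn⟩ | ⟨⟨w, hwn⟩, c, ⟨A, hA⟩⟩
    · have hV1 : Helper227.join V w ∈ R := hj _ hV _ hwn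
      obtain ⟨Y, hY, hMY⟩ := hX.1 _ hV1
      have hle : TLe (Helper227.join X V) (Helper227.join X (Helper227.join V w)) :=
        join_tLe (tLe_join_left _ _) ((tLe_join_left _ _).trans (tLe_join_right _ _))
      obtain ⟨C2, hC2, eC2⟩ := PiC_of_tLe hle hC1
      obtain ⟨C3, hC3, hne3, hsub3, hP3⟩ := basis_step hMY hC2 (by rw [eC2]; exact hne1)
      have hV2 : Helper227.join (Helper227.join V w) Y ∈ R := hj _ hV1 _ hY
      have hle2 : TLe (Helper227.join (Helper227.join X (Helper227.join V w)) Y)
          (Helper227.join X (Helper227.join (Helper227.join V w) Y)) := by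
        refine join_tLe (join_tLe (tLe_join_left _ _) ?_) ?_
        · exact (tLe_join_left _ _).trans (tLe_join_right _ _)
        · exact (tLe_join_right _ _).trans (tLe_join_right _ _)
      obtain ⟨C4, hC4, eC4⟩ := PiC_of_tLe hle2 hC3
      refine ⟨⟨(Helper227.join (Helper227.join V w) Y, C4), hV2, hC4, ?_⟩, ?_, ?_⟩
      · simp only
        rw [eC4]; exact hne3
      · simp only
        rw [eC4, ← eC2]; exact hsub3
      · simp only
        intro P hP
        rw [eC4] at hP
        refine ⟨Y, hY, (hP3 P hP).mono ?_⟩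
        refine join_tLe (join_tLe ?_ (tLe_join_right _ _)) ?_
        · exact (tLe_join_left _ _).trans (tLe_join_left _ _)
        · exact ((tLe_join_right _ _).trans (tLe_join_right _ _)).trans (tLe_join_left _ _)
    · have hV1 : Helper227.join V w ∈ R := hj _ hV _ hwn
      have hle : TLe (Helper227.join (Helper227.join X V) (Helper227.join X w))
          (Helper227.join X (Helper227.join V w)) := by
        refine join_tLe (join_tLe (tLe_join_left _ _) ?_) (join_tLe (tLe_join_left _ _) ?_)
        · exact (tLe_join_left _ _).trans (tLe_join_right _ _)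
        · exact (tLe_join_right _ _).trans (tLe_join_right _ _)
      have hno : ¬ TLe A (Helper227.join (Helper227.join X V) (Helper227.join X w)) :=
        fun h => hX.2 _ hV1 A hA (h.trans hle)
      obtain ⟨C3, hC3, hne3, hsub3, hP3⟩ := avoid_step hno hC1 hne1 c
      obtain ⟨C4, hC4, eC4⟩ := PiC_of_tLe hle hC3
      refine ⟨⟨(Helper227.join V w, C4), hV1, hC4, ?_⟩, ?_, ?_⟩
      · simp only
        rw [eC4]; exact hne3
      · simp only
        rw [eC4]; exact hsub3
      · simp only
        intro P hP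
        rw [eC4] at hP
        exact hP3 P hP
  choose f hf1 hf2 using hstep
  let g : ℕ → St := fun n => Nat.rec ⟨(V0, C0), hV0, hC0, by simp only; rw [eC0]; exact hne⟩
    (fun n p => f (e n) p) n
  have hg : ∀ n, g (n + 1) = f (e n) (g n) := fun n => rfl
  obtain ⟨K, hK⟩ : ∃ K : ℕ → Set (ℕ → Bool), K = fun n => PiC (g n).1.2 (Helper227.join X (g n).1.1) :=
    ⟨_, rfl⟩
  have hKc : ∀ n, IsClosed (K n) := by
    intro n
    rw [hK]
    have : PiC (g n).1.2 (Helper227.join X (g n).1.1) =
        ⋂ s, {y | ¬ (g n).1.2 (pre (Helper227.join X (g n).1.1) s, pre y s)} := by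
      ext y; simp [PiC]
    simp only [this]
    refine isClosed_iInter fun s => ?_
    have hcont : Continuous (fun y : ℕ → Bool => fun i : Fin s => y i) := by fun_prop
    have h2 : {y : ℕ → Bool | ¬ (g n).1.2 (pre (Helper227.join X (g n).1.1) s, pre y s)} =
        (fun y : ℕ → Bool => fun i : Fin s => y i) ⁻¹'
          {v | ¬ (g n).1.2 (pre (Helper227.join X (g n).1.1) s, List.ofFn v)} := by
      ext y
      simp only [Set.mem_ofPred_eq, Set.mem_preimage]
      have : List.ofFn (fun i : Fin s => y i) = pre y s := by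
        refine List.ext_getElem (by simp) fun i h1 h2 => ?_
        simp [getElem_pre]
      rw [this]
    rw [h2]
    exact (isClosed_discrete _).preimage hcont
  have hKs : ∀ n, K (n + 1) ⊆ K n := by
    intro n
    rw [hK]
    simp only [hg]
    exact hf1 (e n) (g n)
  have hKn : ∀ n, (K n).Nonempty := by
    intro n
    rw [hK]
    exact (g n).2.2.2
  obtain ⟨P, hP⟩ := IsCompact.nonempty_iInter_of_sequence_nonempty_isCompact_isClosed K hKs hKn
    (hKc 0).isCompact hKc
  rw [Set.mem_iInter] at hP
  have hreq : ∀ q, Req q P := by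
    intro q
    obtain ⟨n, rfl⟩ := he q
    have := hP (n + 1)
    rw [hK] at this
    simp only [hg] at this
    exact hf2 (e n) (g n) P this
  refine ⟨P, ?_, fun W hW => hreq (.inl ⟨W, hW⟩), fun W hW A hA hle => ?_⟩
  · have := hP 0
    rw [hK] at this
    simp only at this
    rw [← eC0]
    exact this
  · have h1 : TLe A (Helper227.join (Helper227.join X W) P) := by
      refine hle.trans (join_tLe (join_tLe ?_ (tLe_join_right _ _)) ?_)
      · exact (tLe_join_left _ _).trans (tLe_join_left _ _)
      · exact (tLe_join_right _ _).trans (tLe_join_left _ _)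
    obtain ⟨c, hc⟩ := exists_cpt2 h1
    exact hreq (.inr (⟨W, hW⟩, c, ⟨A, hA⟩)) hc

end Pool.Agent.Y785.EN
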