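import Pool.Agent.Helper227.EN.Rnd
import Pool.Agent.Helper227.Sacks

set_option autoImplicit false

open MeasureTheory Encodable
open scoped ENNReal
open Nat.Partrec (Code)

namespace Pool.Agent.Y785.EN

open Pool.Agent Pool.Agent.Helper227 Pool.Agent.Helper227.EN

/-- convergence of the `c`-th functional with two oracles -/
def Ev (c : Code) (x : List Bool × List Bool × ℕ × Bool) : Prop := (c.eval (encode x)).Dom

theorem Ev_iff {c : Code} {x : List Bool × List Bool × ℕ × Bool} :
    Ev c x ↔ ∃ r, (c.evaln r (encode x)).isSome = true := by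
  unfold Ev
  constructor
  · intro h
    obtain ⟨y, hy⟩ := Part.dom_iff_mem.1 h
    obtain ⟨k, hk⟩ := Nat.Partrec.Code.evaln_complete.1 hy
    exact ⟨k, Option.isSome_iff_exists.2 ⟨y, hk⟩⟩
  · rintro ⟨n, hn⟩
    obtain ⟨y, hy⟩ := Option.isSome_iff_exists.1 hn
    exact Part.dom_iff_mem.2 ⟨y, Nat.Partrec.Code.evaln_sound hy⟩

theorem s1_Ev (c : Code) : S1 (Ev c) := by
  have h : S1 fun x : List Bool × List Bool × ℕ × Bool =>
      ∃ r : ℕ, (c.evaln r (encode x)).isSome = true := by
    refine S1.ex (S1.of_prim ?_)
    exact Primrec.eq.comp (Primrec.option_isSome.comp (Nat.Partrec.Code.primrec_evaln.comp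
      ((Primrec.snd.pair (Primrec.const c)).pair (Primrec.encode.comp Primrec.fst))))
      (Primrec.const true)
  exact h.of_eq fun x => Ev_iff.symm

/-- the `c`-th functional decides `C` from the oracles `U` and `P` -/
def cpt2 (c : Code) (C U P : ℕ → Bool) : Prop :=
  ∀ n b, C n = b ↔ ∃ s, Ev c (pre U s, pre P s, n, b)

theorem tLe_of_graph {C O : ℕ → Bool} {E : List Bool × ℕ × Bool → Prop} (hE : S1 E)
    (h : ∀ n b, C n = b ↔ ∃ s, E (pre O s, n, b)) : TLe C O := by
  rw [tLe_iff]
  refine ⟨fun x => ∃ t : ℕ, t ≤ x.1.length ∧ E (x.1.take t, x.2.1, x.2.2), ?_, ?_, ?_⟩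
  · refine S1.ex (S1.and (S1.of_prim ?_) (hE.comp ?_))
    · exact Primrec.nat_le.comp Primrec.snd (Primrec.list_length.comp
        (Primrec.fst.comp Primrec.fst))
    · exact (Primrec.list_take.comp Primrec.snd (Primrec.fst.comp Primrec.fst)).pair
        ((Primrec.fst.comp (Primrec.snd.comp Primrec.fst)).pair
          (Primrec.snd.comp (Primrec.snd.comp Primrec.fst)))
  · rintro σ τ n b hστ ⟨t, ht, hE'⟩
    simp only at ht hE' ⊢
    refine ⟨t, ht.trans hστ.length_le, ?_⟩
    obtain ⟨ρ, rfl⟩ := hστ
    rw [List.take_append_of_le_length ht]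
    exact hE'
  · intro n b
    rw [h]
    constructor
    · rintro ⟨s, hs⟩
      exact ⟨s, s, by simp, by simp only; rw [take_pre _ _ _ le_rfl]; exact hs⟩
    · rintro ⟨s, t, ht, hE'⟩
      simp only [length_pre] at ht hE'
      rw [take_pre _ _ _ ht] at hE'
      exact ⟨t, hE'⟩

/-- reductions to a join are given by functionals with two oracles -/
theorem exists_cpt2 {C U P : ℕ → Bool} (h : TLe C (join U P)) : ∃ c, cpt2 c C U P := by
  obtain ⟨E, hE, mE, eE⟩ := tLe_iff.1 h
  -- translate prefixes
  have hS : S1 fun x : List Bool × List Bool × ℕ × Bool => ∃ ξ : List Bool,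
      (∀ i < ξ.length, (i % 2 = 0 ∧ x.1[i / 2]? = some (ξ.getD i false)) ∨
        (i % 2 = 1 ∧ x.2.1[i / 2]? = some (ξ.getD i false))) ∧ E (ξ, x.2.2.1, x.2.2.2) := by
    refine S1.ex (S1.and (S1.all_lt (S1.of_prim (PrimrecPred.or (PrimrecPred.and ?_ ?_)
      (PrimrecPred.and ?_ ?_))) (Primrec.list_length.comp Primrec.snd)) (hE.comp ?_))
    · exact Primrec.eq.comp (Primrec.nat_mod.comp Primrec.snd (Primrec.const 2)) (Primrec.const 0)
    · exact Primrec.eq.comp (Primrec.list_getElem?.comp
        (Primrec.fst.comp (Primrec.fst.comp Primrec.fst))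
        (Primrec.nat_div.comp Primrec.snd (Primrec.const 2)))
        (Primrec.option_some.comp ((Primrec.list_getD false).comp
          (Primrec.snd.comp Primrec.fst) Primrec.snd))
    · exact Primrec.eq.comp (Primrec.nat_mod.comp Primrec.snd (Primrec.const 2)) (Primrec.const 1)
    · exact Primrec.eq.comp (Primrec.list_getElem?.comp
        (Primrec.fst.comp (Primrec.snd.comp (Primrec.fst.comp Primrec.fst)))
        (Primrec.nat_div.comp Primrec.snd (Primrec.const 2)))
        (Primrec.option_some.comp ((Primrec.list_getD false).comp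
          (Primrec.snd.comp Primrec.fst) Primrec.snd))
    · exact Primrec.snd.pair (Primrec.snd.comp (Primrec.snd.comp Primrec.fst))
  obtain ⟨c, hc⟩ := Nat.Partrec.Code.exists_code.1 hS.re
  refine ⟨c, fun n b => ?_⟩
  have h1 : ∀ x, Ev c x ↔ ∃ ξ : List Bool,
      (∀ i < ξ.length, (i % 2 = 0 ∧ x.1[i / 2]? = some (ξ.getD i false)) ∨
        (i % 2 = 1 ∧ x.2.1[i / 2]? = some (ξ.getD i false))) ∧ E (ξ, x.2.2.1, x.2.2.2) := by
    intro x
    unfold Ev
    rw [hc]
    simp [Part.assert]
  rw [eE]
  constructor
  · rintro ⟨s, hs⟩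
    refine ⟨s, (h1 _).2 ⟨pre (join U P) s, ?_, hs⟩⟩
    intro i hi
    rw [length_pre] at hi
    rw [pre_getD _ _ _ _ hi]
    simp only
    rcases Nat.mod_two_eq_zero_or_one i with h0 | h0
    · left
      refine ⟨h0, ?_⟩
      rw [pre_getElem? _ _ _ (by omega)]
      unfold join
      rw [if_pos h0]
    · right
      refine ⟨h0, ?_⟩
      rw [pre_getElem? _ _ _ (by omega)]
      unfold join
      rw [if_neg (by omega)]
  · rintro ⟨s, hs⟩
    obtain ⟨ξ, h2, h3⟩ := (h1 _).1 hs
    simp only at h2 h3
    refine ⟨ξ.length, ?_⟩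
    have : pre (join U P) ξ.length = ξ := by
      refine List.ext_getElem (by simp) fun i hi1 hi2 => ?_
      rw [getElem_pre]
      have h4 := h2 i hi2
      rw [List.getD_eq_getElem _ _ hi2] at h4
      unfold join
      rcases h4 with ⟨h0, h5⟩ | ⟨h0, h5⟩
      · rw [if_pos h0]
        by_cases hlt : i / 2 < s
        · rw [pre_getElem? _ _ _ hlt] at h5
          exact Option.some_injective _ h5
        · rw [pre_getElem?_none _ _ _ (by omega)] at h5
          cases h5
      · rw [if_neg (by omega)]
        by_cases hlt : i / 2 < s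
        · rw [pre_getElem? _ _ _ hlt] at h5
          exact Option.some_injective _ h5
        · rw [pre_getElem?_none _ _ _ (by omega)] at h5
          cases h5
    rw [this]
    exact h3

/-- the avoidance step for Pi01 classes -/
theorem avoid_step {O U C : ℕ → Bool} (hC : ¬ TLe C (join O U))
    {D : List Bool × List Bool → Prop} (hD : S1 D) (hne : (PiC D O).Nonempty) (c : Code) :
    ∃ D' : List Bool × List Bool → Prop, S1 D' ∧ (PiC D' (join O U)).Nonempty ∧
      PiC D' (join O U) ⊆ PiC D O ∧ ∀ P ∈ PiC D' (join O U), ¬ cpt2 c C U P := by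
  by_cases h1 : ∃ n b s, ∃ P ∈ PiC D O, Ev c (pre U s, pre P s, n, b) ∧ C n ≠ b
  · obtain ⟨n, b, s, P0, hP0, hEv, hCb⟩ := h1
    obtain ⟨D1, hD1, eD1⟩ := conv (C := fun x => D (x.1, x.2.2) ∨
      (s ≤ x.2.2.length ∧ ¬ x.2.2.take s = pre P0 s)) (by
      refine S1.or (hD.comp (Primrec.fst.pair (Primrec.snd.comp Primrec.snd)))
        (S1.of_prim (PrimrecPred.and ?_ (PrimrecPred.not ?_)))
      · exact Primrec.nat_le.comp (Primrec.const s)
          (Primrec.list_length.comp (Primrec.snd.comp Primrec.snd))
      · exact Primrec.eq.comp (Primrec.list_take.comp (Primrec.const s)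
          (Primrec.snd.comp Primrec.snd)) (Primrec.const _))
    have key : ∀ P, P ∈ PiC D1 (join O U) ↔ P ∈ PiC D O ∧ pre P s = pre P0 s := by
      intro P
      have h2 := not_congr (eD1 O U P)
      rw [not_exists, not_exists] at h2
      refine Iff.trans h2 ?_
      simp only [not_or, not_and, not_not, length_pre]
      constructor
      · intro h
        refine ⟨fun t => (h t).1, ?_⟩
        have := (h s).2 le_rfl
        rwa [take_pre _ _ _ le_rfl] at this
      · rintro ⟨h3, h4⟩ t
        refine ⟨h3 t, fun ht => ?_⟩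
        rw [take_pre _ _ _ ht]
        exact h4
    refine ⟨D1, hD1, ⟨P0, (key P0).2 ⟨hP0, rfl⟩⟩, fun P hP => ((key P).1 hP).1, ?_⟩
    intro P hP hcpt
    refine hCb ((hcpt n b).2 ⟨s, ?_⟩)
    rw [((key P).1 hP).2]
    exact hEv
  · push Not at h1
    by_cases h2 : ∃ n, ∃ P ∈ PiC D O, ∀ s, ¬ Ev c (pre U s, pre P s, n, C n)
    · obtain ⟨n, P0, hP0, hEv⟩ := h2
      obtain ⟨D1, hD1, eD1⟩ := conv (C := fun x => D (x.1, x.2.2) ∨
        Ev c (x.2.1, x.2.2, n, C n)) (by
        refine S1.or (hD.comp (Primrec.fst.pair (Primrec.snd.comp Primrec.snd)))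
          ((s1_Ev c).comp ?_)
        exact (Primrec.fst.comp Primrec.snd).pair ((Primrec.snd.comp Primrec.snd).pair
          ((Primrec.const n).pair (Primrec.const _))))
      have key : ∀ P, P ∈ PiC D1 (join O U) ↔
          P ∈ PiC D O ∧ ∀ s, ¬ Ev c (pre U s, pre P s, n, C n) := by
        intro P
        have h2 := not_congr (eD1 O U P)
        rw [not_exists, not_exists] at h2
        refine Iff.trans h2 ?_
        simp only [not_or]
        exact ⟨fun h => ⟨fun s => (h s).1, fun s => (h s).2⟩, fun h s => ⟨h.1 s, h.2 s⟩⟩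
      refine ⟨D1, hD1, ⟨P0, (key P0).2 ⟨hP0, hEv⟩⟩, fun P hP => ((key P).1 hP).1, ?_⟩
      intro P hP hcpt
      obtain ⟨s, hs⟩ := (hcpt n (C n)).1 rfl
      exact ((key P).1 hP).2 s hs
    · push Not at h2
      exfalso
      apply hC
      -- the graph of `C` is enumerable in `O ⊕ U` by compactness
      obtain ⟨D0, hD0, eD0⟩ : ∃ D0 : ℕ × List Bool × List Bool × List Bool → Prop, S1 D0 ∧
          ∀ (m : ℕ) (P Z : ℕ → Bool), (∃ s, D0 (m, pre (join O U) s, pre P s, pre Z s)) ↔
            (∃ s, D (pre O s, pre P s)) ∨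
              ∃ s, Ev c (pre U s, pre P s, m / 2, decide (m % 2 = 1)) := by
        refine ⟨fun x => ∃ s : ℕ, ((2 * s ≤ x.2.1.length ∧ s ≤ x.2.2.1.length) ∧
          (D (rd x.2.1 (fun i => 2 * i) s, x.2.2.1.take s) ∨
          Ev c (rd x.2.1 (fun i => 2 * i + 1) s, x.2.2.1.take s, x.1 / 2,
            decide (x.1 % 2 = 1)))), ?_, ?_⟩
        · refine S1.ex (S1.and (S1.of_prim (PrimrecPred.and ?_ ?_)) (S1.or (hD.comp ?_)
            ((s1_Ev c).comp ?_)))
          · exact Primrec.nat_le.comp (Primrec.nat_mul.comp (Primrec.const 2) Primrec.snd)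
              (Primrec.list_length.comp (Primrec.fst.comp (Primrec.snd.comp Primrec.fst)))
          · exact Primrec.nat_le.comp Primrec.snd (Primrec.list_length.comp
              (Primrec.fst.comp (Primrec.snd.comp (Primrec.snd.comp Primrec.fst))))
          · refine (primrec_rd (g := fun _ i => 2 * i)
              (Primrec.fst.comp (Primrec.snd.comp Primrec.fst)) ?_ Primrec.snd).pair ?_
            · exact Primrec.nat_mul.comp (Primrec.const 2) Primrec.snd
            · exact Primrec.list_take.comp Primrec.snd
                (Primrec.fst.comp (Primrec.snd.comp (Primrec.snd.comp Primrec.fst)))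
          · refine (primrec_rd (g := fun _ i => 2 * i + 1)
              (Primrec.fst.comp (Primrec.snd.comp Primrec.fst)) ?_ Primrec.snd).pair ?_
            · exact Primrec.succ.comp (Primrec.nat_mul.comp (Primrec.const 2) Primrec.snd)
            · refine (Primrec.list_take.comp Primrec.snd
                (Primrec.fst.comp (Primrec.snd.comp (Primrec.snd.comp Primrec.fst)))).pair ?_
              refine (Primrec.nat_div.comp (Primrec.fst.comp Primrec.fst)
                (Primrec.const 2)).pair ?_
              exact PrimrecPred.decide (Primrec.eq.comp (Primrec.nat_mod.comp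
                (Primrec.fst.comp Primrec.fst) (Primrec.const 2)) (Primrec.const 1))
        · have hrd : ∀ (m s : ℕ), 2 * s ≤ m →
              rd (pre (join O U) m) (fun i => 2 * i) s = pre O s ∧
              rd (pre (join O U) m) (fun i => 2 * i + 1) s = pre U s := by
            intro m s h
            constructor
            · rw [rd_pre (fun i hi => by omega)]
              simp only [join_even]
            · rw [rd_pre (fun i hi => by omega)]
              simp only [join_odd]
          intro m P Z
          constructor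
          · rintro ⟨t, s, ⟨h3, h4⟩, h5⟩
            simp only [length_pre] at h3 h4 h5
            rw [(hrd t s h3).1, (hrd t s h3).2, take_pre _ _ _ h4] at h5
            rcases h5 with h5 | h5
            · exact Or.inl ⟨s, h5⟩
            · exact Or.inr ⟨s, h5⟩
          · have hgo : ∀ s, (D (pre O s, pre P s) ∨
                Ev c (pre U s, pre P s, m / 2, decide (m % 2 = 1))) →
                ∃ t, ∃ s : ℕ, ((2 * s ≤ (pre (join O U) t).length ∧ s ≤ (pre P t).length) ∧
                (D (rd (pre (join O U) t) (fun i => 2 * i) s, (pre P t).take s) ∨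
                Ev c (rd (pre (join O U) t) (fun i => 2 * i + 1) s, (pre P t).take s, m / 2,
                  decide (m % 2 = 1)))) := by
              intro s h5
              refine ⟨2 * s, s, ⟨by simp, by simp; omega⟩, ?_⟩
              rw [(hrd (2 * s) s le_rfl).1, (hrd (2 * s) s le_rfl).2,
                take_pre _ _ _ (by omega)]
              exact h5
            rintro (⟨s, h5⟩ | ⟨s, h5⟩)
            · exact hgo s (Or.inl h5)
            · exact hgo s (Or.inr h5)
      obtain ⟨D1, hD1, eD1⟩ := proj hD0
      have hE : S1 fun x : List Bool × ℕ × Bool =>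
          D1 (2 * x.2.1 + x.2.2.toNat, x.1, List.replicate x.1.length false) := by
        refine hD1.comp ?_
        refine (Primrec.nat_add.comp (Primrec.nat_mul.comp (Primrec.const 2)
          (Primrec.fst.comp Primrec.snd)) ((Primrec.dom_bool Bool.toNat).comp
            (Primrec.snd.comp Primrec.snd))).pair (Primrec.fst.pair ?_)
        have h5 : Primrec fun l : List Bool => l.map (fun _ => false) :=
          Primrec.list_map Primrec.id (Primrec.const false).to₂
        refine (h5.comp Primrec.fst).of_eq fun x => ?_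
        rw [List.map_const']
      refine tLe_of_graph hE fun n b => ?_
      have h6 := eD1 (2 * n + b.toNat) (join O U) (fun _ => false)
      have h7 : ∀ s, pre (fun _ => false) s = List.replicate (pre (join O U) s).length false := by
        intro s
        rw [length_pre]
        unfold pre
        rw [List.map_const']
        simp
      simp only [← h7]
      rw [h6]
      have h8 : (2 * n + b.toNat) / 2 = n := by cases b <;> simp; omega
      have h9 : decide ((2 * n + b.toNat) % 2 = 1) = b := by cases b <;> simp [Nat.add_mod]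
      constructor
      · rintro rfl P
        rw [eD0, h8, h9]
        by_cases hP : P ∈ PiC D O
        · exact Or.inr (h2 n P hP)
        · left
          unfold PiC at hP
          simp only [Set.mem_ofPred_eq, not_forall, not_not] at hP
          exact hP
      · intro h
        obtain ⟨P, hP⟩ := hne
        have h10 := (eD0 _ _ _).1 (h P)
        rw [h8, h9] at h10
        rcases h10 with ⟨s, hs⟩ | ⟨s, hs⟩
        · exact absurd hs (hP s)
        · exact h1 n b s P hP hs

end Pool.Agent.Y785.EN
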