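import Pool.Agent.Y785.EN.Cone

set_option autoImplicit false

open MeasureTheory Encodable
open scoped ENNReal
open Nat.Partrec (Code)

namespace Pool.Agent.Y785.EN

open Pool.Agent Pool.Agent.Helper227 Pool.Agent.Helper227.EN

theorem measurable_cpt2 (c : Code) (C U : ℕ → Bool) : MeasurableSet {X | cpt2 c C U X} := by
  have : {X | cpt2 c C U X} = ⋂ n, ⋂ b, {X : ℕ → Bool | C n = b ↔ ∃ s,
      Ev c (pre U s, pre X s, n, b)} := by
    ext X; simp [cpt2]
  rw [this]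
  refine MeasurableSet.iInter fun n => MeasurableSet.iInter fun b => ?_
  have ho := measurableSet_open (fun s ζ => Ev c (pre U s, ζ, n, b))
  by_cases h : C n = b
  · simpa only [h, true_iff] using ho
  · simp only [h, false_iff]
    exact ho.compl

/-- Sacks, relative to an oracle. -/
theorem lam_cpt2_eq_zero {C U : ℕ → Bool} (hC : ¬ TLe C U) (c : Code) :
    lam {X | cpt2 c C U X} = 0 := by
  by_contra hpos
  obtain ⟨σ, hσ⟩ := exists_dense_cyl (measurable_cpt2 c C U) hpos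
  apply hC
  -- the majority vote
  have hP : S1 fun x : (List Bool × ℕ × Bool) × List Bool => (σ.length ≤ x.2.length ∧
      x.2.take σ.length = σ) ∧ ∃ s : ℕ, (s ≤ x.1.1.length ∧ s ≤ x.2.length) ∧
        Ev c (x.1.1.take s, x.2.take s, x.1.2.1, x.1.2.2) := by
    refine S1.and (S1.of_prim (PrimrecPred.and ?_ ?_)) (S1.ex (S1.and (S1.of_prim
      (PrimrecPred.and ?_ ?_)) ((s1_Ev c).comp ?_)))
    · exact Primrec.nat_le.comp (Primrec.const _) (Primrec.list_length.comp Primrec.snd)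
    · exact Primrec.eq.comp (Primrec.list_take.comp (Primrec.const _) Primrec.snd) (Primrec.const _)
    · exact Primrec.nat_le.comp Primrec.snd (Primrec.list_length.comp
        (Primrec.fst.comp (Primrec.fst.comp Primrec.fst)))
    · exact Primrec.nat_le.comp Primrec.snd (Primrec.list_length.comp
        (Primrec.snd.comp Primrec.fst))
    · refine (Primrec.list_take.comp Primrec.snd
        (Primrec.fst.comp (Primrec.fst.comp Primrec.fst))).pair ?_
      refine (Primrec.list_take.comp Primrec.snd (Primrec.snd.comp Primrec.fst)).pair ?_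
      exact (Primrec.fst.comp (Primrec.snd.comp (Primrec.fst.comp Primrec.fst))).pair
        (Primrec.snd.comp (Primrec.snd.comp (Primrec.fst.comp Primrec.fst)))
  have hQ := s1_measure_gt (P := fun (x : List Bool × ℕ × Bool) (ζ : List Bool) =>
      (σ.length ≤ ζ.length ∧ ζ.take σ.length = σ) ∧ ∃ s : ℕ, (s ≤ x.1.length ∧ s ≤ ζ.length) ∧
        Ev c (x.1.take s, ζ.take s, x.2.1, x.2.2)) hP
    (a := fun _ => 1) (b := fun _ => 2 ^ (σ.length + 1)) (Primrec.const _) (Primrec.const _)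
    (fun _ => by positivity)
  refine tLe_of_graph hQ fun n b => ?_
  simp only
  -- the sets of reals voting for `b` with `m` bits of the oracle
  obtain ⟨A, hA⟩ : ∃ A : ℕ → Set (ℕ → Bool), A = fun m => {X : ℕ → Bool | ∃ s ≤ m,
      Ev c (pre U s, pre X s, n, b)} := ⟨_, rfl⟩
  have hset : ∀ m, {X : ℕ → Bool | ∃ t, (σ.length ≤ (pre X t).length ∧
      (pre X t).take σ.length = σ) ∧ ∃ s : ℕ, (s ≤ (pre U m).length ∧ s ≤ (pre X t).length) ∧
        Ev c ((pre U m).take s, (pre X t).take s, n, b)} = cyl σ ∩ A m := by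
    intro m
    ext X
    simp only [Set.mem_ofPred_eq, length_pre, Set.mem_inter_iff, mem_cyl_iff, hA]
    constructor
    · rintro ⟨t, ⟨h1, h2⟩, s, ⟨h3, h5⟩, h4⟩
      rw [take_pre _ _ _ h1] at h2
      rw [take_pre _ _ _ h3, take_pre _ _ _ h5] at h4
      exact ⟨h2, s, h3, h4⟩
    · rintro ⟨h1, s, h3, h2⟩
      refine ⟨σ.length + s, ⟨by omega, by rw [take_pre _ _ _ (by omega)]; exact h1⟩, s,
        ⟨h3, by omega⟩, ?_⟩
      rw [take_pre _ _ _ h3, take_pre _ _ _ (by omega)]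
      exact h2
  have hAm : ∀ m, MeasurableSet (A m) := by
    intro m
    rw [hA]
    have : {X : ℕ → Bool | ∃ s ≤ m, Ev c (pre U s, pre X s, n, b)} =
        {X : ℕ → Bool | ∃ s, (fun s ζ => s ≤ m ∧ Ev c (pre U s, ζ, n, b)) s (pre X s)} := rfl
    simp only
    rw [this]
    exact measurableSet_open (fun s ζ => s ≤ m ∧ Ev c (pre U s, ζ, n, b))
  have hhalf : ((1 : ℕ) : ℝ≥0∞) / ((2 ^ (σ.length + 1) : ℕ) : ℝ≥0∞) = (1 / 2) * lam (cyl σ) := by
    rw [lam_cyl]
    push_cast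
    rw [← pow_succ', one_div, one_div, ENNReal.inv_pow]
  simp only [hset, hhalf]
  have hfc : lam (cyl σ) ≠ ⊤ := measure_ne_top _ _
  have hhalf2 : (1 / 2 : ℝ≥0∞) * lam (cyl σ) < lam ({X | cpt2 c C U X} ∩ cyl σ) := by
    rw [one_div, mul_comm, ← div_eq_mul_inv]
    exact ENNReal.div_lt_of_lt_mul' hσ
  constructor
  · intro h
    have hmono : Monotone fun m => cyl σ ∩ A m := by
      intro m m' hmm X hX
      rw [hA] at hX ⊢
      obtain ⟨h1, s, h2, h3⟩ := hX
      exact ⟨h1, s, h2.trans hmm, h3⟩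
    have hU : (⋃ m, cyl σ ∩ A m) ⊇ {X | cpt2 c C U X} ∩ cyl σ := by
      rintro X ⟨h1, h2⟩
      obtain ⟨s, hs⟩ := (h1 n b).1 h
      rw [Set.mem_iUnion]
      exact ⟨s, h2, by rw [hA]; exact ⟨s, le_rfl, hs⟩⟩
    have hlt : (1 / 2 : ℝ≥0∞) * lam (cyl σ) < lam (⋃ m, cyl σ ∩ A m) :=
      lt_of_lt_of_le hhalf2 (measure_mono hU)
    rw [hmono.measure_iUnion] at hlt
    exact lt_iSup_iff.1 hlt
  · rintro ⟨m, h⟩
    by_contra hne
    -- disjointness
    have hdis : Disjoint ({X | cpt2 c C U X} ∩ cyl σ) (cyl σ ∩ A m) := by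
      rw [Set.disjoint_left]
      rintro X ⟨h1, _⟩ ⟨_, h2⟩
      rw [hA] at h2
      obtain ⟨s, -, hs⟩ := h2
      exact hne ((h1 n b).2 ⟨s, hs⟩)
    have hm2 : MeasurableSet (cyl σ ∩ A m) := (measurableSet_cyl σ).inter (hAm m)
    have hle : lam (({X | cpt2 c C U X} ∩ cyl σ) ∪ (cyl σ ∩ A m)) ≤ lam (cyl σ) := by
      refine measure_mono ?_
      rintro X (⟨_, h⟩ | ⟨h, _⟩) <;> exact h
    rw [measure_union hdis hm2] at hle
    have h3 := ENNReal.add_lt_add hhalf2 h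
    have h4 : (1 / 2 : ℝ≥0∞) * lam (cyl σ) + (1 / 2) * lam (cyl σ) = lam (cyl σ) := by
      rw [← add_mul, one_div, ENNReal.inv_two_add_inv_two, one_mul]
    rw [h4] at h3
    exact absurd (lt_of_lt_of_le h3 hle) (lt_irrefl _)

/-- almost every set does not help to compute a set which is not computable from `U` -/
theorem ae_not_tLe_rel {C U : ℕ → Bool} (hC : ¬ TLe C U) : ∀ᵐ X ∂lam, ¬ TLe C (join U X) := by
  have h : ∀ᵐ X ∂lam, ∀ c : Code, ¬ cpt2 c C U X := by
    rw [ae_all_iff]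
    intro c
    have := lam_cpt2_eq_zero hC c
    rw [ae_iff]
    simpa using this
  filter_upwards [h] with X hX hT
  obtain ⟨c, hc⟩ := exists_cpt2 hT
  exact hX c hc

/-- `X` is good for `R` and avoids the members of `F` together with each member of `R`. -/
def GoodC (R F : Set (ℕ → Bool)) (X : ℕ → Bool) : Prop :=
  Good R X ∧ ∀ W ∈ R, ∀ C ∈ F, ¬ TLe C (join X W)

variable {R F : Set (ℕ → Bool)}

theorem GoodC.mono {X X' : ℕ → Bool} (h : GoodC R F X) (hX : TLe X' X) : GoodC R F X' := by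
  refine ⟨h.1.mono hX, fun W hW C hC hle => h.2 W hW C hC (hle.trans ?_)⟩
  exact join_tLe (hX.trans (tLe_join_left _ _)) (tLe_join_right _ _)

theorem GoodC.join (hj : ∀ X ∈ R, ∀ Y ∈ R, join X Y ∈ R) {X V : ℕ → Bool}
    (h : GoodC R F X) (hV : V ∈ R) : GoodC R F (join X V) := by
  refine ⟨Good.join hj h.1 hV, fun W hW C hC hle =>
    h.2 _ (hj V hV W hW) C hC (hle.trans ?_)⟩
  refine join_tLe (join_tLe (tLe_join_left _ _) ?_) ?_
  · exact (tLe_join_left _ _).trans (tLe_join_right _ _)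
  · exact (tLe_join_right _ _).trans (tLe_join_right _ _)

theorem goodC_of_mem (hj : ∀ X ∈ R, ∀ Y ∈ R, Helper227.join X Y ∈ R)
    (hr : ∀ W ∈ R, ∃ Y ∈ R, MLR W Y) (hF : ∀ W ∈ R, ∀ C ∈ F, ¬ TLe C W) {X : ℕ → Bool}
    (hX : X ∈ R) : GoodC R F X :=
  ⟨good_of_mem hj hr hX, fun W hW C hC => hF _ (hj X hX W hW) C hC⟩

/-- Lemma B with cone avoidance. -/
theorem goodC_random (hc : R.Countable) (hcF : F.Countable) {N : Set (ℕ → Bool)}
    (hcN : N.Countable) {X : ℕ → Bool} (h : GoodC R F X)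
    {V : Set (ℕ → Bool)} (hV : lam V ≠ 0) :
    ∃ Z ∈ V, Z ∉ N ∧ GoodC R F (Helper227.join X Z) := by
  classical
  have h1 : ∀ W : R, ∃ Y ∈ R, MLR (Helper227.join X W.1) Y := fun W => h.1 W.1 W.2
  choose f hF1 hF2 using h1
  have : Countable R := hc
  have : Countable F := hcF
  have h2 : ∀ᵐ Z ∂lam, ∀ W : R, MLR (Helper227.join (Helper227.join X W.1) (f W)) Z :=
    ae_all_iff.2 fun W => ae_mlr _
  have h2' : ∀ᵐ Z ∂lam, ∀ (W : R) (C : F),
      ¬ TLe C.1 (Helper227.join (Helper227.join X W.1) Z) :=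
    ae_all_iff.2 fun W => ae_all_iff.2 fun C => ae_not_tLe_rel (h.2 W.1 W.2 C.1 C.2)
  have h3 : ∀ᵐ Z ∂lam, Z ∉ N := by
    rw [ae_iff]
    simp only [not_not]
    have hR : {Z | Z ∈ N} = ⋃ Z ∈ N, {Z} := by ext; simp
    rw [hR]
    exact (measure_biUnion_null_iff hcN).2 fun Z _ => lam_singleton Z
  have h4 : ∃ Z ∈ V, Z ∉ N ∧ (∀ W : R, MLR (Helper227.join (Helper227.join X W.1) (f W)) Z) ∧
      ∀ (W : R) (C : F), ¬ TLe C.1 (Helper227.join (Helper227.join X W.1) Z) := by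
    by_contra hcon
    refine hV (measure_mono_null (t := {Z | ¬ (Z ∉ N ∧
      (∀ W : R, MLR (Helper227.join (Helper227.join X W.1) (f W)) Z) ∧
      ∀ (W : R) (C : F), ¬ TLe C.1 (Helper227.join (Helper227.join X W.1) Z))}) ?_
      (h3.and (h2.and h2')))
    intro Z hZ hZ'
    exact hcon ⟨Z, hZ, hZ'⟩
  obtain ⟨Z, hZV, hZR, hZ, hZ'⟩ := h4
  refine ⟨Z, hZV, hZR, fun W hW => ⟨f ⟨W, hW⟩, hF1 _, ?_⟩, fun W hW C hC hle => ?_⟩
  · have h5 := MLR.join_of (hF2 ⟨W, hW⟩) (hZ ⟨W, hW⟩)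
    have h6 := h5.symm.right_rel
    refine h6.mono (join_tLe (join_tLe ?_ ?_) ?_)
    · exact (tLe_join_left _ _).trans (tLe_join_left _ _)
    · exact tLe_join_right _ _
    · exact (tLe_join_right _ _).trans (tLe_join_left _ _)
  · refine hZ' ⟨W, hW⟩ ⟨C, hC⟩ (hle.trans ?_)
    refine join_tLe (join_tLe ?_ (tLe_join_right _ _)) ?_
    · exact (tLe_join_left _ _).trans (tLe_join_left _ _)
    · exact (tLe_join_right _ _).trans (tLe_join_left _ _)

end Pool.Agent.Y785.EN
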