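import Pool.Agent.Y785.EN.Basis
import Pool.Agent.Helper227.EN.Main

set_option autoImplicit false

open MeasureTheory Encodable FirstOrder FirstOrder.Language
open scoped ENNReal

namespace Pool.Agent.Y785.EN

open Pool.Agent Pool.Agent.Helper227 Pool.Agent.Helper227.EN

/-- The data used in the construction. -/
structure SetupC (M : Type) [LA.Structure M] (R F : Set (ℕ → Bool)) : Prop extends Setup M R where
  cF : F.Countable
  av : ∀ W ∈ R, ∀ C ∈ F, ¬ TLe C W

variable {M : Type} [LA.Structure M] {R F : Set (ℕ → Bool)}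

/-- The extension lemma. -/
theorem ext_genC (S : SetupC M R F) (n k d : ℕ) (b : ℕ → M) (Q : ℕ → Bool)
    (hQ : GoodC R F (Helper227.join (Pr n k b) Q)) {K : List Bool × List Bool → Prop} (hK : S1 K)
    (b' : ℕ → M) (hb' : Function.Injective b') (hag : ∀ z, Pos n k z → E n b' z = E n b z)
    (hK' : ∀ s, ¬ K (pre Q s, pre (E (n + d) b') s)) :
    ∃ b'' : ℕ → M, Function.Injective b'' ∧ (∀ z, Pos n k z → E n b'' z = E n b z) ∧
      (∀ s, ¬ K (pre Q s, pre (E (n + d) b'') s)) ∧ GoodC R F (E (n + d) b'') := by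
  obtain ⟨C, hC, eC⟩ := ext_class n k d hK
  have h1 : GoodC R F (Helper227.join (Helper227.join (Pr n k b) Q) (Tr M (n + d))) :=
    GoodC.join S.join hQ (S.tr _)
  have hPr : ∀ z, Pos n k z → Pr n k b z = E n b z := fun z hz => by simp [Pr, hz]
  obtain ⟨y, hy, hg⟩ := goodC_basis S.countable S.nonempty S.join S.cF h1 hC ⟨E (n + d) b', by
    rw [eC]
    refine ⟨fun t => tr_self hb' t, fun z hz => ?_, hK'⟩
    rw [E_up, hag z hz, hPr z hz]⟩
  rw [eC] at hy
  obtain ⟨hy1, hy2, hy3⟩ := hy
  obtain ⟨b'', hb'', rfl⟩ := S.real _ y hy1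
  refine ⟨b'', hb'', fun z hz => ?_, hy3, hg.mono (tLe_join_right _ _)⟩
  rw [← E_up n d, hy2 z hz, hPr z hz]

/-- Conditions. -/
structure CndC (M : Type) [LA.Structure M] (R F : Set (ℕ → Bool)) where
  n : ℕ
  k : ℕ
  b : ℕ → M
  inj : Function.Injective b
  good : GoodC R F (Pr n k b)

/-- a sequence is compatible with a condition -/
def CndC.Comp (p : CndC M R F) (b : ℕ → M) : Prop :=
  Function.Injective b ∧ ∀ z, Pos p.n p.k z → E p.n b z = E p.n p.b z

instance : Preorder (CndC M R F) where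
  le p p' := p.n ≤ p'.n ∧ p.k ≤ p'.k ∧ ∀ z, Pos p.n p.k z → E p.n p'.b z = E p.n p.b z
  le_refl p := ⟨le_rfl, le_rfl, fun _ _ => rfl⟩
  le_trans p p' p'' h h' := by
    refine ⟨h.1.trans h'.1, h.2.1.trans h'.2.1, fun z hz => ?_⟩
    rw [← h.2.2 z hz]
    exact agree_down p''.b p'.b p.n p'.n p.k p'.k h.1 h.2.1 h'.2.2 z hz

theorem CndC.le_def {p p' : CndC M R F} : p ≤ p' ↔
    p.n ≤ p'.n ∧ p.k ≤ p'.k ∧ ∀ z, Pos p.n p.k z → E p.n p'.b z = E p.n p.b z := Iff.rfl

theorem CndC.comp_self (p : CndC M R F) : p.Comp p.b := ⟨p.inj, fun _ _ => rfl⟩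

theorem CndC.comp_mono {p p' : CndC M R F} (h : p ≤ p') {b : ℕ → M} (hb : p'.Comp b) : p.Comp b := by
  refine ⟨hb.1, fun z hz => ?_⟩
  rw [← h.2.2 z hz]
  exact agree_down b p'.b p.n p'.n p.k p'.k h.1 h.2.1 hb.2 z hz

theorem CndC.comp_of_le {p p' : CndC M R F} (h : p ≤ p') : p.Comp p'.b := ⟨p'.inj, h.2.2⟩

theorem CndC.comp_of_agree (p : CndC M R F) {b : ℕ → M} (hb : Function.Injective b)
    (h : ∀ i < p.k, b i = p.b i) : p.Comp b :=
  ⟨hb, fun z hz => E_agree p.b b p.k h p.n z hz⟩

/-- positions below `k` of the atomic diagram are decided -/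
theorem CndC.comp_Dg {p : CndC M R F} {b : ℕ → M} (h : p.Comp b) {s : ℕ} (hs : s ≤ p.k) :
    pre (Dg b) s = pre (Dg p.b) s := by
  have h1 := agree_down b p.b 0 p.n p.k p.k (Nat.zero_le _) le_rfl h.2
  unfold pre
  refine List.map_congr_left fun i hi => ?_
  rw [List.mem_range] at hi
  exact h1 i (by show i < p.k; omega)

/-- extension of conditions inside a clopen set -/
theorem CndC.ext (S : SetupC M R F) (p : CndC M R F) (d k' : ℕ) (hk : p.k ≤ k') (g : List Bool → Prop)
    (N : ℕ) (b' : ℕ → M) (hb' : p.Comp b') (hg : g (pre (E (p.n + d) b') N)) :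
    ∃ p' : CndC M R F, p ≤ p' ∧ p'.n = p.n + d ∧ p'.k = k' ∧ g (pre (E (p.n + d) p'.b) N) := by
  classical
  obtain ⟨Q, hQ⟩ := S.nonempty
  have hK : S1 fun x : List Bool × List Bool => N ≤ x.2.length ∧
      x.2.take N ∈ (allStr N).filter (fun η => ¬ g η) := by
    refine S1.of_prim (PrimrecPred.and ?_ ?_)
    · exact Primrec.nat_le.comp (Primrec.const N) (Primrec.list_length.comp Primrec.snd)
    · have : PrimrecRel fun (a : List Bool) (L : List (List Bool)) => a ∈ L := by
        refine ((PrimrecRel.exists_mem_list (R := fun (b a : List Bool) => b = a) Primrec.eq).comp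
          Primrec.snd Primrec.fst).of_eq fun x => ?_
        simp
      exact this.comp (Primrec.list_take.comp (Primrec.const N) Primrec.snd) (Primrec.const _)
  have hKe : ∀ y : ℕ → Bool, (∀ s, ¬ (N ≤ (pre y s).length ∧
      (pre y s).take N ∈ (allStr N).filter (fun η => ¬ g η))) ↔ g (pre y N) := by
    intro y
    simp only [length_pre, List.mem_filter, mem_allStr, decide_eq_true_eq, not_and, not_not]
    constructor
    · intro h
      have := h N le_rfl (by simp)
      rwa [take_pre _ _ _ le_rfl] at this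
    · intro h s hs _
      rw [take_pre _ _ _ hs]
      exact h
  obtain ⟨b'', h1, h2, h3, h4⟩ := ext_genC S p.n p.k d p.b Q (GoodC.join S.join p.good hQ) hK b' hb'.1
    hb'.2 ((hKe _).2 hg)
  exact ⟨⟨p.n + d, k', b'', h1, h4.mono (Pr_tLe _ _ _)⟩, ⟨by simp, hk, h2⟩, rfl, rfl, (hKe _).1 h3⟩

theorem CndC.raise (S : SetupC M R F) (p : CndC M R F) (N : ℕ) :
    ∃ p' : CndC M R F, p ≤ p' ∧ N ≤ p'.n ∧ N ≤ p'.k := by
  obtain ⟨p', h1, h2, h3, -⟩ := p.ext S N (p.k + N) (by omega) (fun _ => True) 0 p.b p.comp_self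
    trivial
  exact ⟨p', h1, by omega, by omega⟩

/-- extension inside an `EDef` set -/
theorem CndC.ext_edef (S : SetupC M R F) (p : CndC M R F) {Q : (ℕ → M) → Prop} (hQ : EDef Q) (b' : ℕ → M)
    (hb' : p.Comp b') (h : Q b') :
    ∃ p' : CndC M R F, p ≤ p' ∧ ∀ b, p'.Comp b → Q b := by
  obtain ⟨n0, N0, hr⟩ := edef_raise hQ
  obtain ⟨n1, N1, g, hg⟩ := hQ
  -- level
  obtain ⟨d, hd⟩ : ∃ d, p.n + d = n1 + (p.n + n0) := ⟨n1 + n0, by ring⟩
  obtain ⟨p', h1, h2, h3, h4⟩ := p.ext S d (p.k + N0) (by omega)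
    (fun η => g (rd η (fun z => 2 ^ (p.n + n0) * z) N1)) (2 ^ (p.n + n0) * N1) b' hb' (by
      rw [hd, rd_pre (fun z hz => by
        exact Nat.mul_lt_mul_of_pos_left hz (by positivity))]
      simp only [E_up]
      exact (hg b' hb'.1).1 h)
  refine ⟨p', h1, fun b hb => ?_⟩
  have h5 : Q p'.b := by
    refine (hg _ p'.inj).2 ?_
    rw [hd, rd_pre (fun z hz => by
        exact Nat.mul_lt_mul_of_pos_left hz (by positivity))] at h4
    simp only [E_up] at h4
    exact h4
  exact (hr p'.n (by omega) p'.k (by omega) b p'.b hb.1 p'.inj hb.2).2 h5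

/-- the Henkin dense sets -/
theorem dense_henkinC (S : SetupC M R F) {m : ℕ} (φ : LA.BoundedFormula Empty (m + 1)) (f : Fin m → ℕ)
    (p : CndC M R F) : ∃ p' : CndC M R F, p ≤ p' ∧
      ((∀ b, p'.Comp b → ¬ ∃ x : M, φ.Realize default (Fin.snoc (fun i => b (f i)) x)) ∨
      (∃ j, ∀ b, p'.Comp b → φ.Realize default (Fin.snoc (fun i => b (f i)) (b j)))) := by
  have hj : ∀ j, EDef (fun b : ℕ → M => φ.Realize default (Fin.snoc (fun i => b (f i)) (b j))) := by
    intro j
    have := edef_formula φ (Fin.snoc f j : Fin (m + 1) → ℕ) (M := M)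
    have he : ∀ b : ℕ → M, (fun i => b ((Fin.snoc f j : Fin (m + 1) → ℕ) i)) =
        (Fin.snoc (fun i => b (f i)) (b j) : Fin (m + 1) → M) := by
      intro b
      funext i
      refine Fin.lastCases ?_ (fun i => ?_) i
      · simp
      · simp
    simpa only [he] using this
  obtain ⟨k0, hk0⟩ : ∃ k0, ∀ i, f i < k0 := by
    refine ⟨(Finset.univ.sup f) + 1, fun i => ?_⟩
    have := Finset.le_sup (f := f) (Finset.mem_univ i)
    omega
  have hex : EDef (fun b : ℕ → M => ∃ x, φ.Realize default (Fin.snoc (fun i => b (f i)) x)) := by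
    refine edef_exval (fun (b : ℕ → M) x => φ.Realize default (Fin.snoc (fun i => b (f i)) x)) k0 ?_ hj
    intro b b' h x
    have : (fun i => b (f i)) = fun i => b' (f i) := by
      funext i
      exact (h _ (hk0 i)).symm
    rw [this]
  obtain ⟨n1, N1, hr⟩ := edef_raise hex
  obtain ⟨p1, hp1, hn1, hk1⟩ := p.raise S (n1 + N1 + k0)
  by_cases hQ : ∃ x : M, φ.Realize default (Fin.snoc (fun i => p1.b (f i)) x)
  · obtain ⟨x, hx⟩ := hQ
    by_cases hxj : ∃ j < p1.k, p1.b j = x
    · obtain ⟨j, -, rfl⟩ := hxj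
      obtain ⟨p2, hp2, h2⟩ := p1.ext_edef S (hj j) p1.b p1.comp_self hx
      exact ⟨p2, hp1.trans hp2, Or.inr ⟨j, h2⟩⟩
    · push Not at hxj
      obtain ⟨b', hb', h1, h2⟩ := inj_put p1.b p1.inj p1.k x hxj
      obtain ⟨p2, hp2, h3⟩ := p1.ext_edef S (hj p1.k) b' (p1.comp_of_agree hb' h1) (by
        rw [h2]
        have : (fun i => b' (f i)) = fun i => p1.b (f i) := by
          funext i
          exact h1 _ (by have := hk0 i; omega)
        rw [this]
        exact hx)
      exact ⟨p2, hp1.trans hp2, Or.inr ⟨p1.k, h3⟩⟩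
  · refine ⟨p1, hp1, Or.inl fun b hb => ?_⟩
    exact fun h => hQ ((hr p1.n (by omega) p1.k (by omega) b p1.b hb.1 p1.inj hb.2).1 h)

/-- the main dense sets -/
theorem dense_mainC (S : SetupC M R F) {N : Set (ℕ → Bool)} (hcN : N.Countable) {G : List Bool × ℕ × Bool → Prop} (hG : S1 G) (p : CndC M R F) :
    ∃ p' : CndC M R F, p ≤ p' ∧
      ((∃ i, ∃ Z, Z ∉ N ∧ ∀ b, p'.Comp b → ∀ s l v, G (pre (Dg b) s, Nat.pair i l, v) → v = Z l) ∨
      (∃ Y ∈ R, ∀ q, p' ≤ q → ∀ i, ∃ q', q ≤ q' ∧ ∃ l v s, s ≤ q'.k ∧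
        G (pre (Dg q'.b) s, Nat.pair i l, v) ∧ v ≠ Y l)) := by
  obtain ⟨p1, hp1, hn1, -⟩ := p.raise S 1
  obtain ⟨n, hn⟩ : ∃ n, p1.n = n + 1 := ⟨p1.n - 1, by omega⟩
  obtain ⟨Y, hY, hMY⟩ := p1.good.1 (Tr M (n + 1)) (S.tr _)
  by_cases halt : ∀ q, p1 ≤ q → ∀ i, ∃ q', q ≤ q' ∧ ∃ l v s, s ≤ q'.k ∧
        G (pre (Dg q'.b) s, Nat.pair i l, v) ∧ v ≠ Y l
  · exact ⟨p1, hp1, Or.inr ⟨Y, hY, halt⟩⟩
  push Not at halt
  obtain ⟨q, hq, i, hqi⟩ := halt
  -- Claim 1
  have hclaim1 : ∀ b : ℕ → M, Function.Injective b → (∀ j < q.k, b j = q.b j) → ∀ s l v,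
      G (pre (Dg b) s, Nat.pair i l, v) → v = Y l := by
    intro b hb hbq s l v hGv
    by_contra hv
    obtain ⟨q', h1, h2, h3, h4⟩ := q.ext S 0 (max q.k s) (le_max_left _ _)
      (fun η => rd η (fun z => 2 ^ q.n * z) s = pre (Dg b) s) (2 ^ q.n * s) b
      (q.comp_of_agree hb hbq) (by
        rw [rd_pre (fun z hz => Nat.mul_lt_mul_of_pos_left hz (by positivity))]
        congr 1
        funext z
        have := E_up 0 q.n b z
        rw [zero_add] at this
        exact this)
    have h5 : pre (Dg q'.b) s = pre (Dg b) s := by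
      rw [rd_pre (fun z hz => Nat.mul_lt_mul_of_pos_left hz (by positivity))] at h4
      rw [← h4]
      congr 1
      funext z
      have := E_up 0 q.n q'.b z
      rw [zero_add] at this
      exact this.symm
    exact hv (hqi q' h1 l v s (by rw [h3]; exact le_max_right _ _) (by rw [h5]; exact hGv))
  -- the class
  have hK := s1_KH hG n q.k i
  have hpr : ∀ z, Pos p1.n p1.k z → Pr p1.n p1.k p1.b z = E p1.n p1.b z := fun z hz => by
    simp [Pr, hz]
  obtain ⟨C, hC, eC⟩ := ext_class p1.n p1.k 0 hK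
  -- the class of all Z, with oracle O = Pr ⊕ Tr
  obtain ⟨D0, hD0, eD0⟩ : ∃ D0 : ℕ × List Bool × List Bool × List Bool → Prop, S1 D0 ∧
      ∀ (m : ℕ) (P T y Z : ℕ → Bool),
        (¬ ∃ s, D0 (m, pre (Helper227.join P T) s, pre y s, pre Z s)) ↔
        (∀ t, T (encode (pre y t)) = true) ∧ (∀ z, Pos p1.n p1.k z → y z = P z) ∧
        ∀ t, ¬ KH G n q.k i (pre Z t, pre y t) := by
    refine ⟨fun x => (∃ t : ℕ, t ≤ x.2.2.1.length ∧ x.2.1[2 * encode (x.2.2.1.take t) + 1]? = some false) ∨
      ((∃ z : ℕ, ∃ c : Bool, (Pos p1.n p1.k z ∧ x.2.1[2 * z]? = some c) ∧ x.2.2.1[z]? = some (!c)) ∨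
      KH G n q.k i (x.2.2.2, x.2.2.1)), ?_, ?_⟩
    · refine S1.or (S1.ex (S1.of_prim (PrimrecPred.and ?_ ?_)))
        (S1.or (S1.ex (S1.ex (S1.of_prim (PrimrecPred.and (PrimrecPred.and ?_ ?_) ?_))))
          (hK.comp ?_))
      · exact Primrec.nat_le.comp Primrec.snd (Primrec.list_length.comp
          (Primrec.fst.comp (Primrec.snd.comp (Primrec.snd.comp Primrec.fst))))
      · refine Primrec.eq.comp (Primrec.list_getElem?.comp
          (Primrec.fst.comp (Primrec.snd.comp Primrec.fst)) ?_) (Primrec.const _)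
        exact Primrec.succ.comp (Primrec.nat_mul.comp (Primrec.const 2) (Primrec.encode.comp
          (Primrec.list_take.comp Primrec.snd
            (Primrec.fst.comp (Primrec.snd.comp (Primrec.snd.comp Primrec.fst))))))
      · exact (primrec_Pos p1.n p1.k).comp (Primrec.snd.comp Primrec.fst)
      · exact Primrec.eq.comp (Primrec.list_getElem?.comp
          (Primrec.fst.comp (Primrec.snd.comp (Primrec.fst.comp Primrec.fst)))
          (Primrec.nat_mul.comp (Primrec.const 2) (Primrec.snd.comp Primrec.fst)))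
          (Primrec.option_some.comp Primrec.snd)
      · exact Primrec.eq.comp (Primrec.list_getElem?.comp
          (Primrec.fst.comp (Primrec.snd.comp (Primrec.snd.comp (Primrec.fst.comp Primrec.fst))))
          (Primrec.snd.comp Primrec.fst))
          (Primrec.option_some.comp ((Primrec.dom_bool Bool.not).comp Primrec.snd))
      · exact (Primrec.snd.comp (Primrec.snd.comp Primrec.snd)).pair
          (Primrec.fst.comp (Primrec.snd.comp Primrec.snd))
    · intro m P T y Z
      simp only [length_pre, not_exists, not_or, not_and]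
      constructor
      · intro h
        refine ⟨fun t => ?_, fun z hz => ?_, fun t => (h t).2.2⟩
        · obtain ⟨h1, -⟩ := h (max t (2 * encode (pre y t) + 2))
          have h2 := h1 t (le_max_left _ _)
          rw [take_pre _ _ _ (le_max_left _ _), pre_getElem? _ _ _ (by omega), join_odd] at h2
          simpa using h2
        · obtain ⟨-, h1, -⟩ := h (2 * z + 1)
          have h2 := h1 z (P z) ⟨hz, by rw [pre_getElem? _ _ _ (by omega), join_even]⟩
          rw [pre_getElem? _ _ _ (by omega)] at h2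
          simp only [Option.some.injEq] at h2
          cases hy : y z <;> cases hp : P z <;> simp_all
      · rintro ⟨h1, h2, h3⟩ s
        refine ⟨fun t ht => ?_, fun z c hzc => ?_, h3 s⟩
        · rw [take_pre _ _ _ ht]
          intro hcon
          by_cases hs : 2 * encode (pre y t) + 1 < s
          · rw [pre_getElem? _ _ _ hs, join_odd, h1] at hcon
            cases hcon
          · rw [pre_getElem?_none _ _ _ (by omega)] at hcon
            cases hcon
        · obtain ⟨hz, hc⟩ := hzc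
          intro hcon
          have hs : 2 * z < s := by
            by_contra hs
            rw [pre_getElem?_none _ _ _ (by omega)] at hc
            cases hc
          rw [pre_getElem? _ _ _ hs, join_even] at hc
          rw [pre_getElem? _ _ _ (by omega), h2 z hz] at hcon
          simp only [Option.some.injEq] at hc hcon
          rw [hc] at hcon
          cases c <;> simp at hcon
  obtain ⟨D, hD, eD⟩ := proj hD0
  have hD' : S1 fun x : List Bool × List Bool => D (0, x.1, x.2) :=
    hD.comp ((Primrec.const 0).pair (Primrec.fst.pair Primrec.snd))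
  have hV : ∀ Z, Z ∈ PiC (fun x : List Bool × List Bool => D (0, x.1, x.2))
      (Helper227.join (Pr p1.n p1.k p1.b) (Tr M (n + 1))) ↔
      ∃ y : ℕ → Bool, (∀ t, Tr M (n + 1) (encode (pre y t)) = true) ∧
        (∀ z, Pos p1.n p1.k z → y z = Pr p1.n p1.k p1.b z) ∧
        ∀ t, ¬ KH G n q.k i (pre Z t, pre y t) := by
    intro Z
    have h1 := eD 0 (Helper227.join (Pr p1.n p1.k p1.b) (Tr M (n + 1))) Z
    have h2 := not_congr h1
    rw [not_exists, not_forall] at h2
    refine Iff.trans h2 ?_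
    exact exists_congr fun y => eD0 0 _ _ y Z
  have hYV : Y ∈ PiC (fun x : List Bool × List Bool => D (0, x.1, x.2))
      (Helper227.join (Pr p1.n p1.k p1.b) (Tr M (n + 1))) := by
    rw [hV]
    refine ⟨E (n + 1) q.b, fun t => tr_self q.inj t, fun z hz => ?_, ?_⟩
    · rw [hpr z hz, ← hn]
      exact hq.2.2 z hz
    · rw [KH_iff]
      intro u l v hu hGu
      rw [E_colp] at hu
      obtain ⟨b', hb', h1, h2⟩ := hu
      refine hclaim1 b' hb' h1 u.length l v ?_
      rw [h2]
      exact hGu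
  have hpos := pos_of_random hMY hD' hYV
  have hO : GoodC R F (Helper227.join (Pr p1.n p1.k p1.b) (Tr M (n + 1))) :=
    GoodC.join S.join p1.good (S.tr _)
  obtain ⟨Z, hZV, hZR, hZG⟩ := goodC_random S.countable S.cF hcN hO hpos
  rw [hV] at hZV
  obtain ⟨y, hy1, hy2, hy3⟩ := hZV
  obtain ⟨b1, hb1, hby⟩ := S.real _ y hy1
  have hPZ : GoodC R F (Helper227.join (Pr p1.n p1.k p1.b) Z) := by
    refine hZG.mono (join_tLe ?_ (tLe_join_right _ _))
    exact (tLe_join_left _ _).trans (tLe_join_left _ _)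
  obtain ⟨b2, hb2, hag, hKb, hgood⟩ := ext_genC S p1.n p1.k 0 p1.b Z hPZ hK b1 hb1 (by
    intro z hz
    rw [← hpr z hz, ← hy2 z hz, ← hby, hn]) (by
    rw [add_zero, hn, hby]
    exact hy3)
  rw [add_zero] at hKb hgood
  refine ⟨⟨p1.n, max p1.k q.k, b2, hb2, hgood.mono (Pr_tLe _ _ _)⟩,
    hp1.trans ⟨le_rfl, le_max_left _ _, hag⟩, Or.inl ⟨i, Z, hZR, ?_⟩⟩
  rintro b ⟨hb, hcomp⟩ s l v hGv
  simp only at hcomp
  rw [hn] at hKb hcomp
  rw [KH_iff] at hKb
  refine hKb (pre (Dg b) s) l v ?_ hGv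
  rw [← hcomp _ (Pos_colp n q.k _ (le_max_right _ _) _), E_colp]
  exact ⟨b, hb, fun _ _ => rfl, by rw [length_pre]⟩

/-- the condition on `y`: strings in the column `k1` of `y` do not make the functional `G`
converge to `v` at `l` -/
def KC (G : List Bool × ℕ × Bool → Prop) (n k1 l : ℕ) (v : Bool) (x : List Bool × List Bool) :
    Prop :=
  ∃ u : List Bool, x.2[colp n k1 u]? = some true ∧ G (u, l, v)

theorem s1_KC {G : List Bool × ℕ × Bool → Prop} (hG : S1 G) (n k1 l : ℕ) (v : Bool) :
    S1 (KC G n k1 l v) := by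
  unfold KC
  refine S1.ex (S1.and (S1.of_prim ?_) (hG.comp ?_))
  · exact Primrec.eq.comp (Primrec.list_getElem?.comp (Primrec.snd.comp Primrec.fst)
      ((primrec_colp n k1).comp Primrec.snd)) (Primrec.const _)
  · exact Primrec.snd.pair (Primrec.const _)

theorem KC_iff {G : List Bool × ℕ × Bool → Prop} (n k1 l : ℕ) (v : Bool) (Z y : ℕ → Bool) :
    (∀ s, ¬ KC G n k1 l v (pre Z s, pre y s)) ↔
      ∀ u : List Bool, y (colp n k1 u) = true → ¬ G (u, l, v) := by
  constructor
  · intro h u h1 h2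
    refine h (colp n k1 u + 1) ⟨u, ?_, h2⟩
    simp only
    rw [pre_getElem? _ _ _ (by omega), h1]
  · rintro h s ⟨u, h1, h2⟩
    simp only at h1
    by_cases hs : colp n k1 u < s
    · rw [pre_getElem? _ _ _ hs] at h1
      exact h u (by simpa using h1) h2
    · rw [pre_getElem?_none _ _ _ (by omega)] at h1
      cases h1

/-- the dense sets for cone avoidance -/
theorem dense_cone (S : SetupC M R F) {C : ℕ → Bool} (hCF : C ∈ F)
    {G : List Bool × ℕ × Bool → Prop} (hG : S1 G) (p : CndC M R F) :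
    ∃ p' : CndC M R F, p ≤ p' ∧
      ((∃ l v s, s ≤ p'.k ∧ G (pre (Dg p'.b) s, l, v) ∧ v ≠ C l) ∨
      (∃ l, ∀ b, p'.Comp b → ∀ s, ¬ G (pre (Dg b) s, l, C l))) := by
  obtain ⟨p1, hp1, hn1, -⟩ := p.raise S 1
  obtain ⟨n, hn⟩ : ∃ n, p1.n = n + 1 := ⟨p1.n - 1, by omega⟩
  by_cases hA : ∃ q, p1 ≤ q ∧ ∃ l v s, s ≤ q.k ∧ G (pre (Dg q.b) s, l, v) ∧ v ≠ C l
  · obtain ⟨q, hq, h⟩ := hA
    exact ⟨q, hp1.trans hq, Or.inl h⟩
  push Not at hA
  -- Claim 1
  have hclaim1 : ∀ b : ℕ → M, Function.Injective b → (∀ j < p1.k, b j = p1.b j) → ∀ s l v,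
      G (pre (Dg b) s, l, v) → v = C l := by
    intro b hb hbq s l v hGv
    obtain ⟨q', h1, h2, h3, h4⟩ := p1.ext S 0 (max p1.k s) (le_max_left _ _)
      (fun η => rd η (fun z => 2 ^ p1.n * z) s = pre (Dg b) s) (2 ^ p1.n * s) b
      (p1.comp_of_agree hb hbq) (by
        rw [rd_pre (fun z hz => Nat.mul_lt_mul_of_pos_left hz (by positivity))]
        congr 1
        funext z
        have := E_up 0 p1.n b z
        rw [zero_add] at this
        exact this)
    have h5 : pre (Dg q'.b) s = pre (Dg b) s := by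
      rw [rd_pre (fun z hz => Nat.mul_lt_mul_of_pos_left hz (by positivity))] at h4
      rw [← h4]
      congr 1
      funext z
      have := E_up 0 p1.n q'.b z
      rw [zero_add] at this
      exact this.symm
    exact hA q' h1 l v s (by rw [h3]; exact le_max_right _ _) (by rw [h5]; exact hGv)
  have hpr : ∀ z, Pos p1.n p1.k z → Pr p1.n p1.k p1.b z = E p1.n p1.b z := fun z hz => by
    simp [Pr, hz]
  by_cases hB : ∃ l, ∃ y : ℕ → Bool, (∀ t, Tr M (n + 1) (encode (pre y t)) = true) ∧
      (∀ z, Pos p1.n p1.k z → y z = Pr p1.n p1.k p1.b z) ∧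
      ∀ u : List Bool, y (colp n p1.k u) = true → ¬ G (u, l, C l)
  · obtain ⟨l, y, hy1, hy2, hy3⟩ := hB
    obtain ⟨b1, hb1, hby⟩ := S.real _ y hy1
    obtain ⟨Q, hQ⟩ := S.nonempty
    have hK := s1_KC hG n p1.k l (C l)
    obtain ⟨b2, hb2, hag, hKb, hgood⟩ := ext_genC S p1.n p1.k 0 p1.b Q
      (GoodC.join S.join p1.good hQ) hK b1 hb1 (by
      intro z hz
      rw [← hpr z hz, ← hy2 z hz, ← hby, hn]) (by
      rw [add_zero, hn, hby, KC_iff]
      exact hy3)
    rw [add_zero] at hKb hgood
    refine ⟨⟨p1.n, p1.k, b2, hb2, hgood.mono (Pr_tLe _ _ _)⟩,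
      hp1.trans ⟨le_rfl, le_rfl, hag⟩, Or.inr ⟨l, ?_⟩⟩
    rintro b ⟨hb, hcomp⟩ s hGv
    simp only at hcomp
    rw [hn] at hKb hcomp
    rw [KC_iff] at hKb
    refine hKb (pre (Dg b) s) ?_ hGv
    rw [← hcomp _ (Pos_colp n p1.k _ le_rfl _), E_colp]
    exact ⟨b, hb, fun _ _ => rfl, by rw [length_pre]⟩
  · push Not at hB
    exfalso
    refine p1.good.2 (Tr M (n + 1)) (S.tr _) C hCF ?_
    obtain ⟨D0, hD0, eD0⟩ : ∃ D0 : ℕ × List Bool × List Bool × List Bool → Prop, S1 D0 ∧
        ∀ (m : ℕ) (P T y Z : ℕ → Bool),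
          (¬ ∃ s, D0 (m, pre (Helper227.join P T) s, pre y s, pre Z s)) ↔
          (∀ t, T (encode (pre y t)) = true) ∧ (∀ z, Pos p1.n p1.k z → y z = P z) ∧
          ∀ t, ¬ (fun x : ℕ × List Bool => ∃ u : List Bool, x.2[colp n p1.k u]? = some true ∧
            G (u, x.1 / 2, decide (x.1 % 2 = 1))) (m, pre y t) := by
      refine ⟨fun x => (∃ t : ℕ, t ≤ x.2.2.1.length ∧ x.2.1[2 * encode (x.2.2.1.take t) + 1]? = some false) ∨
        ((∃ z : ℕ, ∃ c : Bool, (Pos p1.n p1.k z ∧ x.2.1[2 * z]? = some c) ∧ x.2.2.1[z]? = some (!c)) ∨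
        (∃ u : List Bool, x.2.2.1[colp n p1.k u]? = some true ∧
            G (u, x.1 / 2, decide (x.1 % 2 = 1)))), ?_, ?_⟩
      · refine S1.or (S1.ex (S1.of_prim (PrimrecPred.and ?_ ?_)))
          (S1.or (S1.ex (S1.ex (S1.of_prim (PrimrecPred.and (PrimrecPred.and ?_ ?_) ?_))))
            (S1.ex (S1.and (S1.of_prim ?_) (hG.comp ?_))))
        · exact Primrec.nat_le.comp Primrec.snd (Primrec.list_length.comp
            (Primrec.fst.comp (Primrec.snd.comp (Primrec.snd.comp Primrec.fst))))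
        · refine Primrec.eq.comp (Primrec.list_getElem?.comp
            (Primrec.fst.comp (Primrec.snd.comp Primrec.fst)) ?_) (Primrec.const _)
          exact Primrec.succ.comp (Primrec.nat_mul.comp (Primrec.const 2) (Primrec.encode.comp
            (Primrec.list_take.comp Primrec.snd
              (Primrec.fst.comp (Primrec.snd.comp (Primrec.snd.comp Primrec.fst))))))
        · exact (primrec_Pos p1.n p1.k).comp (Primrec.snd.comp Primrec.fst)
        · exact Primrec.eq.comp (Primrec.list_getElem?.comp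
            (Primrec.fst.comp (Primrec.snd.comp (Primrec.fst.comp Primrec.fst)))
            (Primrec.nat_mul.comp (Primrec.const 2) (Primrec.snd.comp Primrec.fst)))
            (Primrec.option_some.comp Primrec.snd)
        · exact Primrec.eq.comp (Primrec.list_getElem?.comp
            (Primrec.fst.comp (Primrec.snd.comp (Primrec.snd.comp (Primrec.fst.comp Primrec.fst))))
            (Primrec.snd.comp Primrec.fst))
            (Primrec.option_some.comp ((Primrec.dom_bool Bool.not).comp Primrec.snd))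
        · exact Primrec.eq.comp (Primrec.list_getElem?.comp
            (Primrec.fst.comp (Primrec.snd.comp (Primrec.snd.comp Primrec.fst)))
            ((primrec_colp n p1.k).comp Primrec.snd)) (Primrec.const _)
        · exact Primrec.snd.pair ((Primrec.nat_div.comp (Primrec.fst.comp Primrec.fst)
            (Primrec.const 2)).pair (PrimrecPred.decide (Primrec.eq.comp (Primrec.nat_mod.comp
              (Primrec.fst.comp Primrec.fst) (Primrec.const 2)) (Primrec.const 1))))
      · intro m P T y Z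
        simp only [length_pre, not_exists, not_or, not_and]
        constructor
        · intro h
          refine ⟨fun t => ?_, fun z hz => ?_, fun t => (h t).2.2⟩
          · obtain ⟨h1, -⟩ := h (max t (2 * encode (pre y t) + 2))
            have h2 := h1 t (le_max_left _ _)
            rw [take_pre _ _ _ (le_max_left _ _), pre_getElem? _ _ _ (by omega), join_odd] at h2
            simpa using h2
          · obtain ⟨-, h1, -⟩ := h (2 * z + 1)
            have h2 := h1 z (P z) ⟨hz, by rw [pre_getElem? _ _ _ (by omega), join_even]⟩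
            rw [pre_getElem? _ _ _ (by omega)] at h2
            simp only [Option.some.injEq] at h2
            cases hy : y z <;> cases hp : P z <;> simp_all
        · rintro ⟨h1, h2, h3⟩ s
          refine ⟨fun t ht => ?_, fun z c hzc => ?_, h3 s⟩
          · rw [take_pre _ _ _ ht]
            intro hcon
            by_cases hs : 2 * encode (pre y t) + 1 < s
            · rw [pre_getElem? _ _ _ hs, join_odd, h1] at hcon
              cases hcon
            · rw [pre_getElem?_none _ _ _ (by omega)] at hcon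
              cases hcon
          · obtain ⟨hz, hc⟩ := hzc
            intro hcon
            have hs : 2 * z < s := by
              by_contra hs
              rw [pre_getElem?_none _ _ _ (by omega)] at hc
              cases hc
            rw [pre_getElem? _ _ _ hs, join_even] at hc
            rw [pre_getElem? _ _ _ (by omega), h2 z hz] at hcon
            simp only [Option.some.injEq] at hc hcon
            rw [hc] at hcon
            cases c <;> simp at hcon
    obtain ⟨D1, hD1, eD1⟩ := proj hD0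
    have hE : S1 fun x : List Bool × ℕ × Bool =>
        D1 (2 * x.2.1 + x.2.2.toNat, x.1, List.replicate x.1.length false) := by
      refine hD1.comp ?_
      refine (Primrec.nat_add.comp (Primrec.nat_mul.comp (Primrec.const 2)
        (Primrec.fst.comp Primrec.snd)) ((Primrec.dom_bool Bool.toNat).comp
          (Primrec.snd.comp Primrec.snd))).pair (Primrec.fst.pair ?_)
      have h5 : Primrec fun l : List Bool => l.map (fun _ => false) :=
        Primrec.list_map Primrec.id (Primrec.const false).to₂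
      refine (h5.comp Primrec.fst).of_eq fun x => ?_
      rw [List.map_const']
    refine tLe_of_graph hE fun l v => ?_
    have h6 := eD1 (2 * l + v.toNat) (Helper227.join (Pr p1.n p1.k p1.b) (Tr M (n + 1)))
      (fun _ => false)
    have h7 : ∀ s, pre (fun _ => false) s = List.replicate
        (pre (Helper227.join (Pr p1.n p1.k p1.b) (Tr M (n + 1))) s).length false := by
      intro s
      rw [length_pre]
      unfold pre
      rw [List.map_const']
      simp
    simp only [← h7]
    rw [h6]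
    have h8 : (2 * l + v.toNat) / 2 = l := by cases v <;> simp; omega
    have h9 : decide ((2 * l + v.toNat) % 2 = 1) = v := by cases v <;> simp [Nat.add_mod]
    have h10 : ∀ y : ℕ → Bool, (∀ t, ¬ (fun x : ℕ × List Bool => ∃ u : List Bool,
        x.2[colp n p1.k u]? = some true ∧ G (u, x.1 / 2, decide (x.1 % 2 = 1)))
          (2 * l + v.toNat, pre y t)) ↔
        ∀ u : List Bool, y (colp n p1.k u) = true → ¬ G (u, l, v) := by
      intro y
      have := KC_iff (G := G) n p1.k l v y y
      rw [← this]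
      simp only [h8, h9]
      rfl
    constructor
    · rintro rfl y
      by_contra hcon
      rw [eD0, h10] at hcon
      obtain ⟨u, hu, hGu⟩ := hB l y hcon.1 hcon.2.1
      exact hcon.2.2 u hu hGu
    · intro h
      obtain ⟨s, hs⟩ := h (E (n + 1) p1.b)
      have h11 := not_congr (eD0 (2 * l + v.toNat) (Pr p1.n p1.k p1.b) (Tr M (n + 1))
        (E (n + 1) p1.b) (fun _ => false))
      rw [not_not] at h11
      have h12 := h11.1 ⟨s, hs⟩
      rw [h10] at h12
      have h13 : ¬ ∀ u : List Bool, E (n + 1) p1.b (colp n p1.k u) = true → ¬ G (u, l, v) := by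
        intro h14
        refine h12 ⟨fun t => tr_self p1.inj t, fun z hz => ?_, h14⟩
        rw [hpr z hz, hn]
      push Not at h13
      obtain ⟨u, hu, hGu⟩ := h13
      rw [E_colp] at hu
      obtain ⟨b', hb', h1, h2⟩ := hu
      refine (hclaim1 b' hb' h1 u.length l v ?_).symm
      rw [h2]
      exact hGu

end Pool.Agent.Y785.EN
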