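import Pool.Agent.Y785.EN.Force

set_option autoImplicit false

open MeasureTheory Encodable FirstOrder FirstOrder.Language
open scoped ENNReal

namespace Pool.Agent.Y785.EN

open Pool.Agent Pool.Agent.Helper227 Pool.Agent.Helper227.EN

section gen

variable {M : Type} [LA.Structure M] {R F : Set (ℕ → Bool)}

/-- generic sequences -/
theorem genericC {ι : Type} [Countable ι] (D : ι → CndC M R F → Prop)
    (hD : ∀ i p, ∃ p', p ≤ p' ∧ D i p') (p0 : CndC M R F) :
    ∃ P : ℕ → CndC M R F, Monotone P ∧ p0 ≤ P 0 ∧ ∀ i, ∃ t, D i (P t) := by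
  classical
  rcases isEmpty_or_nonempty ι with hι | hι
  · exact ⟨fun _ => p0, fun _ _ _ => le_rfl, le_rfl, fun i => hι.elim i⟩
  obtain ⟨e, he⟩ := exists_surjective_nat ι
  choose f hf1 hf2 using hD
  let P : ℕ → CndC M R F := fun t => Nat.rec p0 (fun t p => f (e t) p) t
  have hP : ∀ t, P (t + 1) = f (e t) (P t) := fun t => rfl
  refine ⟨P, monotone_nat_of_le_succ fun t => by rw [hP]; exact hf1 _ _, le_rfl, fun i => ?_⟩
  obtain ⟨t, rfl⟩ := he i
  exact ⟨t + 1, by rw [hP]; exact hf2 _ _⟩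

/-- The initial condition. -/
theorem startC [Infinite M] (S : SetupC M R F) (x : M) (hx : ∀ b : ℕ → M, b 0 = x → ¬ SP (Dg b)) :
    ∃ p : CndC M R F, ∀ b, p.Comp b → ¬ SP (Dg b) := by
  classical
  obtain ⟨b0, hb0, hb0'⟩ := inj_extend (fun _ => x) 1 (by intro i hi j hj _; omega)
  have hb00 : b0 0 = x := hb0' 0 (by omega)
  obtain ⟨Q, hQ⟩ := S.nonempty
  have hgood : GoodC R F (Helper227.join (Pr 0 0 b0) Q) := by
    refine (goodC_of_mem S.join S.rand S.av hQ).mono (join_tLe ?_ (TLe.refl _))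
    have : Pr 0 0 b0 = fun _ => false := by
      funext z
      have : ¬ Pos 0 0 z := by simp [Pos]
      simp [Pr, this]
    rw [this]
    rw [tLe_iff]
    refine ⟨fun y => y.2.2 = false, S1.of_prim (Primrec.eq.comp (Primrec.snd.comp Primrec.snd)
      (Primrec.const false)), fun _ _ _ _ _ h => h, fun n c => ?_⟩
    simp [eq_comm]
  have hK : S1 fun y : List Bool × List Bool => ∃ u : List Bool, SPf u ∧
      y.2[colp 0 1 u]? = some true := by
    refine S1.ex (S1.and (s1_SPf.comp Primrec.snd) (S1.of_prim ?_))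
    exact Primrec.eq.comp (Primrec.list_getElem?.comp (Primrec.snd.comp Primrec.fst)
      ((primrec_colp 0 1).comp Primrec.snd)) (Primrec.const _)
  have hKe : ∀ y Q : ℕ → Bool, (∀ s, ¬ (fun y : List Bool × List Bool => ∃ u : List Bool, SPf u ∧
      y.2[colp 0 1 u]? = some true) (pre Q s, pre y s)) ↔ ∀ u, SPf u → y (colp 0 1 u) ≠ true := by
    intro y Q
    constructor
    · intro h u hu hy
      exact h (colp 0 1 u + 1) ⟨u, hu, by simp only; rw [pre_getElem? _ _ _ (by omega), hy]⟩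
    · rintro h s ⟨u, hu, hy⟩
      simp only at hy
      by_cases hs : colp 0 1 u < s
      · rw [pre_getElem? _ _ _ hs] at hy
        exact h u hu (by simpa using hy)
      · rw [pre_getElem?_none _ _ _ (by omega)] at hy
        cases hy
  obtain ⟨b1, h1, h2, h3, h4⟩ := ext_genC S 0 0 1 b0 Q hgood hK b0 hb0 (fun _ _ => rfl) (by
    rw [hKe]
    intro u hu hcol
    have : E (0 + 1) b0 (colp 0 1 u) = true := hcol
    rw [E_colp] at this
    obtain ⟨b', hb', h1, h2⟩ := this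
    refine hx b' (by rw [h1 0 (by omega), hb00]) ?_
    rw [SP_iff]
    exact ⟨u.length, by rw [h2]; exact hu⟩)
  rw [hKe] at h3
  refine ⟨⟨1, 1, b1, h1, h4.mono (Pr_tLe _ _ _)⟩, ?_⟩
  rintro b ⟨hb, hcomp⟩ hSP
  simp only at hcomp
  rw [SP_iff] at hSP
  obtain ⟨s, hs⟩ := hSP
  refine h3 _ hs ?_
  have h5 : E 1 b (colp 0 1 (pre (Dg b) s)) = true := by
    have : E (0 + 1) b (colp 0 1 (pre (Dg b) s)) = true := by
      rw [E_colp]
      exact ⟨b, hb, fun _ _ => rfl, by rw [length_pre]⟩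
    exact this
  rw [hcomp _ (Pos_colp 0 1 1 le_rfl _)] at h5
  exact h5

/-- The abstract main theorem. -/
theorem main_modelC [Infinite M] (S : SetupC M R F) {N : Set (ℕ → Bool)} (hcN : N.Countable) (x : M)
    (hx : ∀ b : ℕ → M, b 0 = x → ¬ SP (Dg b)) :
    ∃ A : LA.Structure ℕ, (∀ T : LA.Theory, M ⊨ T → @FirstOrder.Language.Theory.Model LA ℕ A T) ∧
      ¬ SP (diag A) ∧ (∀ X, (∀ Y ∈ R, ∃ i, (fun l => X (Nat.pair i l)) = Y) →
        (∀ i, (fun l => X (Nat.pair i l)) ∈ N) → ¬ TLe X (diag A)) ∧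
        ∀ C ∈ F, ¬ TLe C (diag A) := by
  classical
  obtain ⟨p0, hp0⟩ := startC S x hx
  obtain ⟨w, hw⟩ := S.countable.exists_eq_range S.nonempty
  have hcf := countable_fml
  let Gc : Nat.Partrec.Code → List Bool × ℕ × Bool → Prop := fun c y => (c.eval (encode y)).Dom
  have hGc : ∀ G : List Bool × ℕ × Bool → Prop, S1 G → ∃ c, Gc c = G := by
    intro G hG
    obtain ⟨c, hc⟩ := Nat.Partrec.Code.exists_code.1 hG.re
    refine ⟨c, ?_⟩
    funext y
    simp only [Gc]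
    rw [hc]
    simp [Part.assert]
  have cF : Countable F := S.cF
  let ι := ℕ ⊕ (Σ m, LA.BoundedFormula Empty (m + 1) × (Fin m → ℕ)) ⊕ Nat.Partrec.Code ⊕
    (Nat.Partrec.Code × ℕ × ℕ) ⊕ (Nat.Partrec.Code × F)
  let D : ι → CndC M R F → Prop := fun i p => match i with
    | .inl N => N ≤ p.n ∧ N ≤ p.k
    | .inr (.inl ⟨m, φ, f⟩) =>
      ((∀ b, p.Comp b → ¬ ∃ x : M, φ.Realize default (Fin.snoc (fun i => b (f i)) x)) ∨
      (∃ j, ∀ b, p.Comp b → φ.Realize default (Fin.snoc (fun i => b (f i)) (b j))))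
    | .inr (.inr (.inl c)) => S1 (Gc c) →
      ((∃ i, ∃ Z, Z ∉ N ∧ ∀ b, p.Comp b → ∀ s l v, Gc c (pre (Dg b) s, Nat.pair i l, v) → v = Z l) ∨
      (∃ Y ∈ R, ∀ q, p ≤ q → ∀ i, ∃ q', q ≤ q' ∧ ∃ l v s, s ≤ q'.k ∧
        Gc c (pre (Dg q'.b) s, Nat.pair i l, v) ∧ v ≠ Y l))
    | .inr (.inr (.inr (.inr (c, C)))) => S1 (Gc c) →
      ((∃ l v s, s ≤ p.k ∧ Gc c (pre (Dg p.b) s, l, v) ∧ v ≠ C.1 l) ∨
      (∃ l, ∀ b, p.Comp b → ∀ s, ¬ Gc c (pre (Dg b) s, l, C.1 l)))
    | .inr (.inr (.inr (.inl (c, i, j)))) =>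
      (∃ l v s, s ≤ p.k ∧ Gc c (pre (Dg p.b) s, Nat.pair i l, v) ∧ v ≠ w j l) ∨
      ∀ q, p ≤ q → ¬ ∃ l v s, s ≤ q.k ∧ Gc c (pre (Dg q.b) s, Nat.pair i l, v) ∧ v ≠ w j l
  have hD : ∀ i p, ∃ p', p ≤ p' ∧ D i p' := by
    intro i p
    rcases i with N | ⟨m, φ, f⟩ | c | ⟨c, i, j⟩ | ⟨c, C⟩
    · exact p.raise S N
    · exact dense_henkinC S φ f p
    · by_cases hc : S1 (Gc c)
      · obtain ⟨p', h1, h2⟩ := dense_mainC S hcN hc p
        exact ⟨p', h1, fun _ => h2⟩
      · exact ⟨p, le_rfl, fun h => absurd h hc⟩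
    · by_cases h : ∃ q, p ≤ q ∧ ∃ l v s, s ≤ q.k ∧ Gc c (pre (Dg q.b) s, Nat.pair i l, v) ∧ v ≠ w j l
      · obtain ⟨q, h1, h2⟩ := h
        exact ⟨q, h1, Or.inl h2⟩
      · refine ⟨p, le_rfl, Or.inr fun q hq hq' => h ⟨q, hq, hq'⟩⟩
    · by_cases hc : S1 (Gc c)
      · obtain ⟨p', h1, h2⟩ := dense_cone S C.2 hc p
        exact ⟨p', h1, fun _ => h2⟩
      · exact ⟨p, le_rfl, fun h => absurd h hc⟩
  obtain ⟨P, hPm, hP0, hPD⟩ := genericC D hD p0
  have hcomp : ∀ t t', t ≤ t' → (P t).Comp (P t').b := fun t t' h => CndC.comp_of_le (hPm h)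
  obtain ⟨A, hA1, hA2⟩ := limit_structure (fun t => (P t).b) (fun t => (P t).inj) (by
    intro m φ f
    obtain ⟨s, hs⟩ := hPD (.inr (.inl ⟨m, φ, f⟩))
    rcases hs with h | ⟨j, h⟩
    · exact Or.inl ⟨s, fun t ht => h _ (hcomp s t ht)⟩
    · exact Or.inr ⟨j, s, fun t ht => h _ (hcomp s t ht)⟩)
  -- the diagram is the limit
  have hlim : ∀ s, ∃ t0, ∀ t ≥ t0, pre (Dg (P t).b) s = pre (diag A) s := by
    intro s
    obtain ⟨t0, -, ht0⟩ := hPD (.inl s)
    have h1 : ∀ t ≥ t0, pre (Dg (P t).b) s = pre (Dg (P t0).b) s := fun t ht =>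
      CndC.comp_Dg (hcomp t0 t ht) ht0
    refine ⟨t0, fun t ht => ?_⟩
    rw [h1 t ht]
    unfold pre
    refine List.map_congr_left fun z hz => ?_
    rw [List.mem_range] at hz
    have h2 : ∀ t ≥ t0, Dg (P t).b z = Dg (P t0).b z := by
      intro t ht
      have := congrArg (fun l => l.getD z false) (h1 t ht)
      rwa [pre_getD _ _ _ _ hz, pre_getD _ _ _ _ hz] at this
    have h3 : ∀ᶠ t in (Filter.hyperfilter ℕ : Filter ℕ), t0 ≤ t := by
      have : ∀ᶠ t in Filter.cofinite, t0 ≤ t := by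
        rw [Nat.cofinite_eq_atTop]
        exact Filter.eventually_ge_atTop t0
      exact Filter.hyperfilter_le_cofinite this
    rw [Bool.eq_iff_iff, hA2 z]
    constructor
    · intro h
      exact h3.mono fun t ht => by rw [h2 t ht]; exact h
    · intro h
      obtain ⟨t, ht1, ht2⟩ := (h.and h3).exists
      rw [h2 t ht2] at ht1
      exact ht1
  refine ⟨A, hA1, ?_, ?_, ?_⟩
  · intro hSP
    rw [SP_iff] at hSP
    obtain ⟨s, hs⟩ := hSP
    obtain ⟨t0, ht0⟩ := hlim s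
    rw [← ht0 t0 le_rfl] at hs
    refine hp0 (P t0).b (CndC.comp_of_le (hP0.trans (hPm (Nat.zero_le _)))) ?_
    rw [SP_iff]
    exact ⟨s, hs⟩
  · intro X hXR hXN hle
    obtain ⟨G, hG, mG, eG⟩ := tLe_iff.1 hle
    obtain ⟨c, rfl⟩ := hGc G hG
    obtain ⟨t, ht⟩ := hPD (.inr (.inr (.inl c)))
    rcases ht hG with ⟨i, Z, hZR, hZ⟩ | ⟨Y, hY, hYq⟩
    · apply hZR
      have h1 : (fun l => X (Nat.pair i l)) ∈ N := hXN i
      have h2 : (fun l => X (Nat.pair i l)) = Z := by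
        funext l
        obtain ⟨s, hs⟩ := (eG (Nat.pair i l) _).1 rfl
        obtain ⟨t0, ht0⟩ := hlim s
        rw [← ht0 (max t t0) (le_max_right _ _)] at hs
        exact hZ _ (hcomp t _ (le_max_left _ _)) s l _ hs
      rw [← h2]
      exact h1
    · obtain ⟨j, hj⟩ : ∃ j, w j = Y := by rw [hw] at hY; exact hY
      obtain ⟨i, hi⟩ : ∃ i, (fun l => X (Nat.pair i l)) = Y := hXR Y hY
      obtain ⟨t', ht'⟩ := hPD (.inr (.inr (.inr (.inl (c, i, j)))))
      rcases ht' with ⟨l, v, s, h1, h2, h3⟩ | h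
      · obtain ⟨t0, ht0⟩ := hlim s
        have h4 := ht0 (max t' t0) (le_max_right _ _)
        rw [CndC.comp_Dg (hcomp t' _ (le_max_left _ _)) h1] at h4
        rw [h4] at h2
        have h5 := (eG (Nat.pair i l) v).2 ⟨s, h2⟩
        apply h3
        rw [hj, ← hi]
        exact h5.symm
      · obtain ⟨q', hq', l, v, s, h1, h2, h3⟩ := hYq (P (max t t')) (hPm (le_max_left _ _)) i
        refine h q' ((hPm (le_max_right _ _)).trans hq') ⟨l, v, s, h1, h2, ?_⟩
        rw [hj]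
        exact h3
  · intro C hCF hle
    obtain ⟨G, hG, mG, eG⟩ := tLe_iff.1 hle
    obtain ⟨c, rfl⟩ := hGc G hG
    obtain ⟨t, ht⟩ := hPD (.inr (.inr (.inr (.inr (c, ⟨C, hCF⟩)))))
    rcases ht hG with ⟨l, v, s, h1, h2, h3⟩ | ⟨l, hl⟩
    · obtain ⟨t0, ht0⟩ := hlim s
      have h4 := ht0 (max t t0) (le_max_right _ _)
      rw [CndC.comp_Dg (hcomp t _ (le_max_left _ _)) h1] at h4
      rw [h4] at h2
      have h5 := (eG l v).2 ⟨s, h2⟩
      exact h3 h5.symm
    · obtain ⟨s, hs⟩ := (eG l (C l)).1 rfl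
      obtain ⟨t0, ht0⟩ := hlim s
      rw [← ht0 (max t t0) (le_max_right _ _)] at hs
      exact hl _ (hcomp t _ (le_max_left _ _)) s hs

end gen

/-- the family of coded sets is closed under Turing reducibility -/
theorem rep_down {M : Type} [CommSemiring M] [LinearOrder M] [IsStrictOrderedRing M]
    [CanonicallyOrderedAdd M] [LA.Structure M] (hc : Compat M) {W C : ℕ → Bool} (hW : W ∈ RepM M)
    (h : TLe C W) : C ∈ RepM M := by
  obtain ⟨G, hG, mG, eG⟩ := tLe_iff.1 h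
  have hD : S1 fun x : List Bool × List Bool => ∃ n : ℕ, ∃ b : Bool,
      G (x.1, n, b) ∧ x.2[n]? = some (!b) := by
    refine S1.ex (S1.ex (S1.and (hG.comp ?_) (S1.of_prim ?_)))
    · exact (Primrec.fst.comp (Primrec.fst.comp Primrec.fst)).pair
        ((Primrec.snd.comp Primrec.fst).pair Primrec.snd)
    · exact Primrec.eq.comp (Primrec.list_getElem?.comp
        (Primrec.snd.comp (Primrec.fst.comp Primrec.fst)) (Primrec.snd.comp Primrec.fst))
        (Primrec.option_some.comp ((Primrec.dom_bool Bool.not).comp Primrec.snd))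
  have hmem : C ∈ PiC (fun x : List Bool × List Bool => ∃ n : ℕ, ∃ b : Bool,
      G (x.1, n, b) ∧ x.2[n]? = some (!b)) W := by
    rintro s ⟨n, b, h1, h2⟩
    simp only at h1 h2
    have h3 := (eG n b).2 ⟨s, h1⟩
    by_cases hs : n < s
    · rw [pre_getElem? _ _ _ hs, h3] at h2
      cases b <;> simp at h2
    · rw [pre_getElem?_none _ _ _ (by omega)] at h2
      cases h2
  obtain ⟨Y, hY, hYP⟩ := rep_scott hc hW hD ⟨C, hmem⟩
  have : Y = C := by
    funext n
    by_contra hne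
    obtain ⟨s, hs⟩ := (eG n (C n)).1 rfl
    refine hYP (max s (n + 1)) ⟨n, C n, ?_, ?_⟩
    · exact mG _ _ _ _ (pre_prefix _ (le_max_left _ _)) hs
    · simp only
      rw [pre_getElem? _ _ _ (by omega)]
      cases hy : Y n <;> cases hcn : C n <;> simp_all
  rw [← this]
  exact hY

/-- For every completion `T` of `PA` and countable family `F` there is a nonstandard model of `T`
which computes no enumeration of a family between `Rep T` and `Rep T ∪ F`, and no member of `F`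
outside `Rep T`. -/
theorem mainC (T : LA.Theory) (hT : T.IsComplete) (hPA : PA ⊆ T) (F : Set (ℕ → Bool))
    (hcF : F.Countable) : ∃ A : LA.Structure ℕ,
      @FirstOrder.Language.Theory.Model LA ℕ A T ∧
      ¬ Nonempty (@FirstOrder.Language.Equiv LA ℕ ℕ A stdStr) ∧
      (∀ (S : Set (ℕ → Bool)) (X : ℕ → Bool), EN.Rep T ⊆ S → S ⊆ EN.Rep T ∪ F → IsEnum X S →
        ¬ TLe X (diag A)) ∧
      ∀ C ∈ F, TLe C (diag A) → C ∈ EN.Rep T := by
  obtain ⟨M⟩ := hT.1
  have hM : (M : Type) ⊨ T := M.is_model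
  have hPm : (M : Type) ⊨ PAminus := hM.mono (Set.subset_union_left.trans hPA)
  obtain ⟨i1, i2, i3, i4, hc⟩ := exists_alg M hPm
  have hchar : Function.Injective (fun m : ℕ => (m : M)) := Nat.cast_injective
  have hinf : Infinite M := Infinite.of_injective _ hchar
  have hnum : Function.Injective
      (fun m : ℕ => (num m : LA.Term Empty).realize (default : Empty → M)) := by
    intro a b h
    simp only [num_value hc] at h
    exact hchar h
  obtain ⟨x, hx⟩ := sp_nonstd hnum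
  have hinf2 : Infinite (UP M) := by
    have h1 := up_inj (fun _ i => (i : M)) (fun _ => hchar)
    exact Infinite.of_injective _ h1
  have S : SetupC (UP M) (RepM M) {C | C ∈ F ∧ ∀ W ∈ RepM M, ¬ TLe C W} := by
    refine ⟨⟨repM_countable M, ⟨_, repTr hc 0⟩, fun X hX Y hY => repM_join hc X Y hX hY,
      fun n => ?_, fun W hW => rand_exists hc hW, fun n y hy => ?_⟩,
      hcF.mono (fun C hC => hC.1), fun W hW C hC => hC.2 W hW⟩
    · rw [up_Tr]; exact repTr hc n
    · rw [up_Tr] at hy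
      exact up_real n y hy
  obtain ⟨A, hA1, hA2, hA3, hA4⟩ := main_modelC S ((repM_countable M).union hcF) x hx
  refine ⟨A, hA1 T ?_, fun h => hA2 (sp_std A h), ?_, ?_⟩
  · refine ⟨fun φ hφ => ?_⟩
    rw [Ultraproduct.sentence_realize]
    exact Filter.Eventually.of_forall fun _ => hM.realize_of_mem φ hφ
  · intro S' X h1 h2 hX
    rw [rep_eq hT hM hc] at h1 h2
    refine hA3 X (fun Y hY => ?_) (fun i => ?_)
    · have h3 := h1 hY
      rw [hX] at h3
      exact h3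
    · apply h2
      rw [hX]
      exact ⟨i, rfl⟩
  · intro C hC hle
    by_contra hcon
    rw [rep_eq hT hM hc] at hcon
    exact hA4 C ⟨hC, fun W hW hCW => hcon (rep_down hc hW hCW)⟩ hle

end Pool.Agent.Y785.EN
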